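import Pool.Agent.W_3283e1_h97.LocB

set_option autoImplicit false

namespace W3283c

open MeasureTheory Filter Topology W3283l

/-- The thresholded function in the window. -/
noncomputable def locf (e : ℝ → ℝ) (x δ U A : ℝ) : ℝ → ℝ :=
  (Set.Icc U A).indicator (fun u => Real.exp (-(x * u)) * altMsoft (e u) (Real.exp (δ * u)))

theorem locf_meas (e : ℝ → ℝ) (he : Measurable e) (x δ U A : ℝ) : Measurable (locf e x δ U A) := by
  have hmS : Measurable (fun u : ℝ => altMsoft (e u) (Real.exp (δ * u))) := by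
    unfold altMsoft
    have hK : Measurable (fun u : ℝ => Real.exp (δ * u)) := by fun_prop
    refine Measurable.ite (measurableSet_lt hK he) (he.sub hK) ?_
    exact Measurable.ite (measurableSet_lt he hK.neg) (he.add hK) measurable_const
  unfold locf
  refine Measurable.indicator ?_ measurableSet_Icc
  fun_prop

theorem locf_bd (e : ℝ → ℝ) (C : ℝ) (hC : 0 ≤ C)
    (hb : ∀ u : ℝ, 1 ≤ u → |e u| ≤ C * Real.exp (3 / 4 * u)) (x δ U A : ℝ) (hx : 2 < x)
    (hU : 1 ≤ U) (u : ℝ) : |locf e x δ U A u| ≤ C := by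
  unfold locf
  by_cases hu : u ∈ Set.Icc U A
  · rw [Set.indicator_of_mem hu, abs_mul, Real.abs_exp]
    have hu1 : 1 ≤ u := hU.trans hu.1
    have h1 := altM_soft_abs (e u) (Real.exp (δ * u)) (Real.exp_pos _).le
    calc Real.exp (-(x * u)) * |altMsoft (e u) (Real.exp (δ * u))| ≤
        Real.exp (-(x * u)) * (C * Real.exp (3 / 4 * u)) := by
          gcongr
          exact h1.trans (hb u hu1)
      _ = C * (Real.exp (-(x * u)) * Real.exp (3 / 4 * u)) := by ring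
      _ = C * Real.exp (-(x * u) + 3 / 4 * u) := by rw [Real.exp_add]
      _ ≤ C * 1 := by
          gcongr
          rw [Real.exp_le_one_iff]
          nlinarith
      _ = C := mul_one C
  · rw [Set.indicator_of_notMem hu, abs_zero]
    exact hC

theorem locf_sign (e : ℝ → ℝ) (x δ U A u σ : ℝ) (hσ : σ = 1 ∨ σ = -1)
    (h : 0 < σ * locf e x δ U A u) : U ≤ u ∧ u ≤ A ∧ Real.exp (δ * u) ≤ σ * e u := by
  have hE : 0 < Real.exp (-(x * u)) := Real.exp_pos _
  unfold locf at h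
  by_cases hu : u ∈ Set.Icc U A
  · rw [Set.indicator_of_mem hu] at h
    refine ⟨hu.1, hu.2, ?_⟩
    rcases hσ with hs | hs
    · rw [hs, one_mul] at h ⊢
      exact altM_soft_pos _ _ (pos_of_mul_pos_right h hE.le)
    · rw [hs] at h ⊢
      have h2 : altMsoft (e u) (Real.exp (δ * u)) < 0 := by
        by_contra hcon
        rw [not_lt] at hcon
        have : 0 ≤ Real.exp (-(x * u)) * altMsoft (e u) (Real.exp (δ * u)) :=
          mul_nonneg hE.le hcon
        linarith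
      have := altM_soft_neg _ _ h2
      linarith
  · rw [Set.indicator_of_notMem hu, mul_zero] at h
    exact absurd h (lt_irrefl _)

/-- The sign of a moment of the thresholded function. -/
theorem loc_sign (e : ℝ → ℝ) (he : Measurable e) (C : ℝ) (hC : 0 ≤ C)
    (hb : ∀ u : ℝ, 1 ≤ u → |e u| ≤ C * Real.exp (3 / 4 * u)) (hloc : IntegrableOn e (Set.Ioc 0 1))
    (x R c δ η : ℝ) (hx : 2 < x) (hR : 0 < R) (hδ : 0 ≤ δ) (hRx : R < x - δ) (hc : 0 < c)
    (hη : 0 < η) (hη1 : η ≤ 1) (hxη : 72 / η ^ 2 ≤ x) (B n0 : ℕ) (σ : ℝ) (hσ : σ = 1 ∨ σ = -1)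
    (hmom : ∀ n : ℕ, n0 ≤ n → ∃ k < B, c * ((n + k).factorial / R ^ (n + k)) / (n + k) ≤
      σ * ∫ u in Set.Ioi (0 : ℝ), u ^ (n + k) * e u * Real.exp (-(x * u))) :
    ∃ U1 : ℝ, 1 ≤ U1 ∧ ∀ U : ℝ, U1 ≤ U → ∀ n : ℕ, x * (1 + η / 3) * U ≤ n →
      ((n + B : ℕ) : ℝ) ≤ x * (1 + 2 * η / 3) * U → ∃ k < B,
        0 < σ * ∫ u in Set.Icc U ((1 + η) * U), u ^ ((n + k : ℕ) : ℝ) *
          locf e x δ U ((1 + η) * U) u := by
  obtain ⟨U1, hU1, hbd⟩ := loc_bound e he C hC hb hloc x R c δ η hx hR hδ hRx hc hη hη1 hxη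
  refine ⟨max U1 n0, hU1.trans (le_max_left _ _), fun U hU n hn hnB => ?_⟩
  have hUU1 : U1 ≤ U := (le_max_left _ _).trans hU
  have hUn0 : (n0 : ℝ) ≤ U := (le_max_right _ _).trans hU
  have hU0 : 1 ≤ U := hU1.trans hUU1
  have hUn : U ≤ n := by
    refine le_trans ?_ hn
    have h1 : 1 ≤ x * (1 + η / 3) := by nlinarith
    exact le_mul_of_one_le_left (by linarith) h1
  have hn0 : n0 ≤ n := by exact_mod_cast hUn0.trans hUn
  have hn1 : 1 ≤ n := by exact_mod_cast hU0.trans hUn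
  obtain ⟨k, hk, hm⟩ := hmom n hn0
  refine ⟨k, hk, ?_⟩
  have hmomf : ∫ u in Set.Icc U ((1 + η) * U), u ^ ((n + k : ℕ) : ℝ) *
      locf e x δ U ((1 + η) * U) u = ∫ u in Set.Icc U ((1 + η) * U), u ^ (n + k) *
        (Real.exp (-(x * u)) * altMsoft (e u) (Real.exp (δ * u))) := by
    refine setIntegral_congr_fun measurableSet_Icc (fun u hu => ?_)
    beta_reduce
    unfold locf
    rw [Set.indicator_of_mem hu, Real.rpow_natCast]
  rw [hmomf]
  have hkB : ((n + k : ℕ) : ℝ) ≤ x * (1 + 2 * η / 3) * U := by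
    refine le_trans ?_ hnB
    exact_mod_cast (by omega : n + k ≤ n + B)
  have hd := hbd U hUU1 (n + k) (hn.trans (by exact_mod_cast (by omega : n ≤ n + k))) hkB
  have hpos : 0 < c * ((n + k).factorial / R ^ (n + k)) / (n + k) := by
    have h2 : (0 : ℝ) < (n : ℝ) + k := by exact_mod_cast (by omega : 0 < n + k)
    have h3 : (0 : ℝ) < (n + k).factorial := by exact_mod_cast Nat.factorial_pos _
    positivity
  push_cast at hd
  rw [abs_le] at hd
  rcases hσ with rfl | rfl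
  · linarith [hd.1, hd.2]
  · linarith [hd.1, hd.2]

/-- One sign: an excursion in every window. -/
theorem loc_pos (e : ℝ → ℝ) (he : Measurable e) (C : ℝ)
    (hb : ∀ u : ℝ, 1 ≤ u → |e u| ≤ C * Real.exp (3 / 4 * u)) (hloc : IntegrableOn e (Set.Ioc 0 1))
    (x R c δ η : ℝ) (hx : 2 < x) (hR : 0 < R) (hδ : 0 ≤ δ) (hRx : R < x - δ) (hc : 0 < c)
    (hη : 0 < η) (hη1 : η ≤ 1) (hxη : 72 / η ^ 2 ≤ x) (B n0 : ℕ) (σ : ℝ) (hσ : σ = 1 ∨ σ = -1)
    (hmom : ∀ n : ℕ, n0 ≤ n → ∃ k < B, c * ((n + k).factorial / R ^ (n + k)) / (n + k) ≤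
      σ * ∫ u in Set.Ioi (0 : ℝ), u ^ (n + k) * e u * Real.exp (-(x * u))) :
    ∃ U1 : ℝ, ∀ U : ℝ, U1 ≤ U → ∃ v : ℝ, U ≤ v ∧ v ≤ (1 + η) * U ∧
      Real.exp (δ * v) ≤ σ * e v := by
  have hC : 0 ≤ C := by
    have := (abs_nonneg _).trans (hb 1 le_rfl)
    exact nonneg_of_mul_nonneg_left this (Real.exp_pos _)
  obtain ⟨U1, hU1, hs⟩ := loc_sign e he C hC hb hloc x R c δ η hx hR hδ hRx hc hη hη1 hxη B n0 σ
    hσ hmom
  refine ⟨max U1 ((B + 1) * 3 / η), fun U hU => ?_⟩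
  have hUU1 : U1 ≤ U := (le_max_left _ _).trans hU
  have hU0 : 1 ≤ U := hU1.trans hUU1
  have hUB : (B + 1) * 3 / η ≤ U := (le_max_right _ _).trans hU
  rw [div_le_iff₀ hη] at hUB
  have hceil := Nat.ceil_lt_add_one (show 0 ≤ x * (1 + η / 3) * U by positivity)
  obtain ⟨k, hk, hpos⟩ := hs U hUU1 ⌈x * (1 + η / 3) * U⌉₊ (Nat.le_ceil _) (by
    push_cast
    have h1 : x * (1 + 2 * η / 3) * U = x * (1 + η / 3) * U + x * (U * η) / 3 := by ring
    rw [h1]
    have h2 : 2 * (U * η) ≤ x * (U * η) := mul_le_mul_of_nonneg_right hx.le (by positivity)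
    have h3 : (0 : ℝ) ≤ B := Nat.cast_nonneg B
    linarith)
  by_contra hcon
  push Not at hcon
  have hle : σ * ∫ u in Set.Icc U ((1 + η) * U), u ^ ((⌈x * (1 + η / 3) * U⌉₊ + k : ℕ) : ℝ) *
      locf e x δ U ((1 + η) * U) u ≤ 0 := by
    rw [← integral_const_mul]
    refine setIntegral_nonpos measurableSet_Icc fun u hu => ?_
    have h1 : σ * locf e x δ U ((1 + η) * U) u ≤ 0 := by
      by_contra h2
      push Not at h2
      obtain ⟨h3, h4, h5⟩ := locf_sign e x δ U _ u σ hσ h2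
      exact absurd (hcon u h3 h4) (not_lt.2 h5)
    have h2 : 0 ≤ u ^ ((⌈x * (1 + η / 3) * U⌉₊ + k : ℕ) : ℝ) :=
      Real.rpow_nonneg (by linarith [hu.1]) _
    calc σ * (u ^ ((⌈x * (1 + η / 3) * U⌉₊ + k : ℕ) : ℝ) * locf e x δ U ((1 + η) * U) u) =
        u ^ ((⌈x * (1 + η / 3) * U⌉₊ + k : ℕ) : ℝ) * (σ * locf e x δ U ((1 + η) * U) u) := by ring
      _ ≤ 0 := mul_nonpos_of_nonneg_of_nonpos h2 h1
  exact absurd hpos (not_lt.2 hle)

/-- Both signs: a positive proportion of alternations in every window. -/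
theorem loc_alt (e : ℝ → ℝ) (he : Measurable e) (C : ℝ)
    (hb : ∀ u : ℝ, 1 ≤ u → |e u| ≤ C * Real.exp (3 / 4 * u)) (hloc : IntegrableOn e (Set.Ioc 0 1))
    (x R c δ η : ℝ) (hx : 2 < x) (hR : 0 < R) (hδ : 0 ≤ δ) (hRx : R < x - δ) (hc : 0 < c)
    (hη : 0 < η) (hη1 : η ≤ 1) (hxη : 72 / η ^ 2 ≤ x) (B n0 : ℕ) (hB : 1 ≤ B)
    (CB : ℝ) (hCB : 0 < CB) (hBx : (B : ℝ) ≤ CB * x)
    (hmom : ∀ n : ℕ, n0 ≤ n → ∃ k < B, c * ((n + k).factorial / R ^ (n + k)) / (n + k) ≤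
      ∫ u in Set.Ioi (0 : ℝ), u ^ (n + k) * e u * Real.exp (-(x * u)))
    (hmom' : ∀ n : ℕ, n0 ≤ n → ∃ k < B, c * ((n + k).factorial / R ^ (n + k)) / (n + k) ≤
      -∫ u in Set.Ioi (0 : ℝ), u ^ (n + k) * e u * Real.exp (-(x * u))) :
    ∃ U1 : ℝ, ∀ U : ℝ, U1 ≤ U → ∃ (N : ℕ) (σ : ℝ) (v : ℕ → ℝ), 1 / (6 * CB) * (η * U) ≤ N ∧
      (σ = 1 ∨ σ = -1) ∧ (∀ a < N, v a < v (a + 1)) ∧
      ∀ a ≤ N, U ≤ v a ∧ v a ≤ (1 + η) * U ∧ Real.exp (δ * v a) ≤ σ * (-1) ^ a * e (v a) := by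
  have hC : 0 ≤ C := by
    have := (abs_nonneg _).trans (hb 1 le_rfl)
    exact nonneg_of_mul_nonneg_left this (Real.exp_pos _)
  obtain ⟨U1, hU1, hs⟩ := loc_sign e he C hC hb hloc x R c δ η hx hR hδ hRx hc hη hη1 hxη B n0 1
    (Or.inl rfl) (fun n hn => by simpa only [one_mul] using hmom n hn)
  obtain ⟨U2, hU2, hs'⟩ := loc_sign e he C hC hb hloc x R c δ η hx hR hδ hRx hc hη hη1 hxη B n0
    (-1) (Or.inr rfl) (fun n hn => by simpa only [neg_one_mul] using hmom' n hn)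
  refine ⟨max (max U1 U2) (max (24 * CB / η) ((2 * B + 2) * 3 / η)), fun U hU => ?_⟩
  have hUU1 : U1 ≤ U := ((le_max_left _ _).trans (le_max_left _ _)).trans hU
  have hUU2 : U2 ≤ U := ((le_max_right _ _).trans (le_max_left _ _)).trans hU
  have hU0 : 1 ≤ U := hU1.trans hUU1
  have hUCB : 24 * CB / η ≤ U := ((le_max_left _ _).trans (le_max_right _ _)).trans hU
  have hUB : (2 * B + 2) * 3 / η ≤ U := ((le_max_right _ _).trans (le_max_right _ _)).trans hU
  rw [div_le_iff₀ hη] at hUCB hUB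
  have hBr : (1 : ℝ) ≤ B := by exact_mod_cast hB
  set A : ℝ := (1 + η) * U with hA
  set lo : ℝ := x * (1 + η / 3) * U with hlo
  set hi : ℝ := x * (1 + 2 * η / 3) * U with hhi
  have hlo0 : 0 ≤ lo := by rw [hlo]; positivity
  have hhi0 : 0 ≤ hi := by rw [hhi]; positivity
  have hdiff : hi = lo + x * (U * η) / 3 := by rw [hhi, hlo]; ring
  have hxU : 2 * (U * η) ≤ x * (U * η) := mul_le_mul_of_nonneg_right hx.le (by positivity)
  set a0 : ℕ := ⌈lo⌉₊ with ha0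
  set a1 : ℕ := ⌊hi⌋₊ with ha1
  have h1 : lo ≤ a0 := Nat.le_ceil _
  have h2 : (a0 : ℝ) < lo + 1 := Nat.ceil_lt_add_one hlo0
  have h3 : (a1 : ℝ) ≤ hi := Nat.floor_le hhi0
  have h4 : hi < a1 + 1 := Nat.lt_floor_add_one _
  have h5 : (a0 : ℝ) + 2 * B ≤ a1 := by linarith
  have h5' : a0 + 2 * B ≤ a1 := by exact_mod_cast h5
  set J : ℕ := (a1 - a0) / B - 1 with hJ
  have hJdiv : 2 ≤ (a1 - a0) / B := by
    rw [Nat.le_div_iff_mul_le (by omega)]
    omega
  have hJ1 : J + 1 = (a1 - a0) / B := by omega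
  have hJN : a0 + (J + 1) * B ≤ a1 := by
    rw [hJ1]
    have := Nat.div_mul_le_self (a1 - a0) B
    omega
  have hηp : ∀ i : ℕ, ((-1 : ℝ) ^ i = 1 ∨ (-1 : ℝ) ^ i = -1) := fun i => neg_one_pow_eq_or ℝ i
  have hblock : ∀ i ≤ J, a0 + i * B + B ≤ a1 := by
    intro i hi
    have : (i + 1) * B ≤ (J + 1) * B := Nat.mul_le_mul_right B (by omega)
    have h2 : (i + 1) * B = i * B + B := by ring
    omega
  have hsign : ∀ i : ℕ, i ≤ J → ∃ k < B,
      0 < (-1 : ℝ) ^ i * ∫ u in Set.Icc U A, u ^ ((a0 + i * B + k : ℕ) : ℝ) *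
        locf e x δ U A u := by
    intro i hi
    have g1 : lo ≤ ((a0 + i * B : ℕ) : ℝ) := by
      refine h1.trans ?_
      exact_mod_cast (by omega : a0 ≤ a0 + i * B)
    have g2 : ((a0 + i * B + B : ℕ) : ℝ) ≤ x * (1 + 2 * η / 3) * U := by
      refine le_trans ?_ h3
      exact_mod_cast hblock i hi
    rcases hηp i with h | h
    · rw [h]
      exact hs U hUU1 (a0 + i * B) g1 g2
    · rw [h]
      exact hs' U hUU2 (a0 + i * B) g1 g2
  choose! kk hkB hkpos using hsign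
  have hAlt : Alt (fun y : ℝ => ∫ u in Set.Icc U A, u ^ y * locf e x δ U A u) Set.univ J := by
    refine ⟨1, fun i => ((a0 + i * B + kk i : ℕ) : ℝ), Or.inl rfl, ?_, ?_⟩
    · intro i hi
      have g1 := hkB i hi.le
      have g2 : a0 + i * B + kk i < a0 + (i + 1) * B + kk (i + 1) := by
        have h3 : (i + 1) * B = i * B + B := by ring
        omega
      beta_reduce
      exact Nat.cast_lt.2 g2
    · intro i hi
      refine ⟨Set.mem_univ _, ?_⟩
      rw [one_mul]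
      exact hkpos i hi
  obtain ⟨σ, v, hσ, hv, hv2⟩ := descartes (locf e x δ U A) (locf_meas e he x δ U A) C
    (locf_bd e C hC hb x δ U A hx hU0) U A (by linarith) J hAlt
  refine ⟨J, σ, v, ?_, hσ, hv, fun i hi => ?_⟩
  · have g1 : ((a1 - a0 : ℕ) : ℝ) < (((a1 - a0) / B : ℕ) + 1) * B := by
      have := Nat.lt_div_mul_add (a := a1 - a0) (b := B) (by omega)
      have g2 : a1 - a0 < ((a1 - a0) / B + 1) * B := by
        rw [add_mul, one_mul]; exact this
      exact_mod_cast g2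
    rw [← hJ1, Nat.cast_sub (by omega)] at g1
    push_cast at g1
    have g2 : x * (U * η) / 3 - 2 < ((J : ℝ) + 1 + 1) * B := by linarith
    -- `B ≤ CB x`
    have g3 : x * (U * η) / 3 < ((J : ℝ) + 4) * (CB * x) := by
      have g4 : x * (U * η) / 3 < ((J : ℝ) + 4) * B := by nlinarith
      refine lt_of_lt_of_le g4 ?_
      exact mul_le_mul_of_nonneg_left hBx (by positivity)
    have g5 : U * η / 3 < ((J : ℝ) + 4) * CB := by
      have g6 : x * (U * η / 3) < x * (((J : ℝ) + 4) * CB) := by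
        calc x * (U * η / 3) = x * (U * η) / 3 := by ring
          _ < _ := g3
          _ = _ := by ring
      exact lt_of_mul_lt_mul_left g6 (by linarith)
    rw [div_mul_eq_mul_div, one_mul, div_le_iff₀ (by positivity)]
    linarith
  · obtain ⟨_, hpos⟩ := hv2 i hi
    refine locf_sign e x δ U A (v i) (σ * (-1) ^ i) ?_ hpos
    rcases hσ with rfl | rfl
    · rw [one_mul]; exact hηp i
    · rcases hηp i with h | h <;> rw [h] <;> norm_num

end W3283c
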