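import Pool.Agent.W_3283e1_h97.LocM

set_option autoImplicit false

namespace W3283c

open MeasureTheory Filter Topology W3283l

theorem small_exp (K : ℝ) (hK : 0 ≤ K) : ∃ U0 : ℝ, 1 ≤ U0 ∧ ∀ U : ℝ, U0 ≤ U →
    K * U ^ 2 * Real.exp (-(U / 4)) ≤ 1 := by
  refine ⟨384 * K + 1, by linarith, fun U hU => ?_⟩
  have hU1 : 1 ≤ U := by linarith
  have hU0 : 0 < U := by linarith
  have h1 := Real.pow_div_factorial_le_exp (U / 4) (by linarith) 3
  have h2 : (U / 4) ^ 3 / (Nat.factorial 3 : ℝ) = U ^ 3 / 384 := by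
    norm_num [Nat.factorial]
    ring
  rw [h2] at h1
  rw [Real.exp_neg, ← div_eq_mul_inv, div_le_one (Real.exp_pos _)]
  refine le_trans ?_ h1
  rw [le_div_iff₀ (by norm_num)]
  have h3 : K * 384 ≤ U := by linarith
  calc K * U ^ 2 * 384 = K * 384 * U ^ 2 := by ring
    _ ≤ U * U ^ 2 := mul_le_mul_of_nonneg_right h3 (by positivity)
    _ = U ^ 3 := by ring

/-- The moments of `e` and those of its thresholded part in the window `[U, (1 + η) U]`. -/
theorem loc_bound (e : ℝ → ℝ) (he : Measurable e) (C : ℝ) (hC : 0 ≤ C)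
    (hb : ∀ u : ℝ, 1 ≤ u → |e u| ≤ C * Real.exp (3 / 4 * u)) (hloc : IntegrableOn e (Set.Ioc 0 1))
    (x R c δ η : ℝ) (hx : 2 < x) (hR : 0 < R) (hδ : 0 ≤ δ) (hRx : R < x - δ) (hc : 0 < c)
    (hη : 0 < η) (hη1 : η ≤ 1) (hxη : 72 / η ^ 2 ≤ x) :
    ∃ U1 : ℝ, 1 ≤ U1 ∧ ∀ U : ℝ, U1 ≤ U → ∀ n : ℕ, x * (1 + η / 3) * U ≤ n →
      n ≤ x * (1 + 2 * η / 3) * U →
      |(∫ u in Set.Ioi (0 : ℝ), u ^ n * e u * Real.exp (-(x * u))) -
        ∫ u in Set.Icc U ((1 + η) * U), u ^ n * (Real.exp (-(x * u)) *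
          altMsoft (e u) (Real.exp (δ * u)))| ≤
      1 / 2 * (c * (n.factorial / R ^ n) / n) := by
  set E1 : ℝ := ∫ u in Set.Ioc 0 1, |e u| with hE1
  have hE1n : 0 ≤ E1 := integral_nonneg fun u => abs_nonneg _
  have hx0 : 0 < x := by linarith
  have hxδ : 0 < x - δ := by linarith
  have hη2 : 0 < η ^ 2 := by positivity
  have hxη' : 72 ≤ x * η ^ 2 := by
    rwa [div_le_iff₀ hη2] at hxη
  have t1 : Tendsto (fun n : ℕ => E1 * (2 * R) ^ n / n.factorial) atTop (𝓝 0) := by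
    have h := (FloorSemiring.tendsto_pow_div_factorial_atTop (2 * R)).const_mul E1
    rw [mul_zero] at h
    refine h.congr fun n => ?_
    ring
  have t2 : Tendsto (fun n : ℕ => (n : ℝ) * (R / (x - δ)) ^ n) atTop (𝓝 0) :=
    tendsto_self_mul_const_pow_of_lt_one (by positivity) ((div_lt_one hxδ).2 hRx)
  obtain ⟨a1, ha1⟩ := (t1.eventually (ge_mem_nhds (show (0 : ℝ) < c / 8 by positivity))).exists_forall_of_atTop
  obtain ⟨a2, ha2⟩ := (t2.eventually (ge_mem_nhds
    (show (0 : ℝ) < c * (x - δ) / 8 by positivity))).exists_forall_of_atTop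
  obtain ⟨U0, hU0, hsm⟩ := small_exp (C * (2 * x) / (c / 8)) (by positivity)
  refine ⟨max U0 (max a1 a2), hU0.trans (le_max_left _ _), fun U hU n hn1 hn2 => ?_⟩
  have hUU0 : U0 ≤ U := (le_max_left _ _).trans hU
  have hUa1 : (a1 : ℝ) ≤ U := ((le_max_left _ _).trans (le_max_right _ _)).trans hU
  have hUa2 : (a2 : ℝ) ≤ U := ((le_max_right _ _).trans (le_max_right _ _)).trans hU
  have hU1 : 1 ≤ U := hU0.trans hUU0
  have hUp : 0 < U := by linarith
  have hUn : U ≤ n := by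
    refine le_trans ?_ hn1
    have h1 : 1 ≤ x * (1 + η / 3) := by nlinarith
    exact le_mul_of_one_le_left hUp.le h1
  have hna1 : a1 ≤ n := by exact_mod_cast hUa1.trans hUn
  have hna2 : a2 ≤ n := by exact_mod_cast hUa2.trans hUn
  have hn1' : 1 ≤ n := by exact_mod_cast hU1.trans hUn
  have hn0 : (0 : ℝ) < n := by exact_mod_cast hn1'
  set A : ℝ := (1 + η) * U with hA
  have hA1 : 1 ≤ A := by rw [hA]; nlinarith
  have hUA : U ≤ A := by rw [hA]; nlinarith
  have hA0 : 0 < A := by linarith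
  have hf : (0 : ℝ) < n.factorial := by exact_mod_cast Nat.factorial_pos n
  have hn2x : (n : ℝ) ≤ 2 * x * U := by
    refine hn2.trans ?_
    have : x * (1 + 2 * η / 3) ≤ 2 * x := by nlinarith
    exact mul_le_mul_of_nonneg_right this hUp.le
  -- the splitting
  have hint := altM_int_e e he C hb hloc x hx n
  have hs1 : Set.Ioi (0 : ℝ) = Set.Ioc 0 U ∪ (Set.Ioc U A ∪ Set.Ioi A) := by
    rw [Set.Ioc_union_Ioi_eq_Ioi hUA, Set.Ioc_union_Ioi_eq_Ioi (by linarith)]
  have hd1 : Disjoint (Set.Ioc (0 : ℝ) U) (Set.Ioc U A ∪ Set.Ioi A) := by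
    rw [Set.Ioc_union_Ioi_eq_Ioi hUA]
    exact Set.disjoint_left.2 fun u hu hu' => absurd hu.2 (not_le.2 hu')
  have hd2 : Disjoint (Set.Ioc U A) (Set.Ioi A) :=
    Set.disjoint_left.2 fun u hu hu' => absurd hu.2 (not_le.2 hu')
  have hI1 : IntegrableOn (fun u : ℝ => u ^ n * e u * Real.exp (-(x * u))) (Set.Ioc 0 U) :=
    hint.mono_set Set.Ioc_subset_Ioi_self
  have hI2 : IntegrableOn (fun u : ℝ => u ^ n * e u * Real.exp (-(x * u))) (Set.Ioc U A) :=
    hint.mono_set (fun u hu => lt_trans (by linarith) hu.1)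
  have hI3 : IntegrableOn (fun u : ℝ => u ^ n * e u * Real.exp (-(x * u))) (Set.Ioi A) :=
    hint.mono_set (Set.Ioi_subset_Ioi (by linarith))
  have hsum : (∫ u in Set.Ioi (0 : ℝ), u ^ n * e u * Real.exp (-(x * u))) =
      (∫ u in Set.Ioc 0 U, u ^ n * e u * Real.exp (-(x * u))) +
      ((∫ u in Set.Ioc U A, u ^ n * e u * Real.exp (-(x * u))) +
       ∫ u in Set.Ioi A, u ^ n * e u * Real.exp (-(x * u))) := by
    rw [hs1, setIntegral_union hd1 (measurableSet_Ioc.union measurableSet_Ioi) hI1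
      (hI2.union hI3), setIntegral_union hd2 measurableSet_Ioi hI2 hI3]
  -- the bounds
  have b1 := left_bd e he C hC hb hloc x hx U hU1 n (by
    refine le_trans ?_ hn1
    refine mul_le_mul_of_nonneg_right ?_ hUp.le
    nlinarith)
  have hxη1 : 72 ≤ x * η := by
    have : x * η ^ 2 ≤ x * η := by
      have : η ^ 2 ≤ η := by nlinarith
      exact mul_le_mul_of_nonneg_left this hx0.le
    linarith
  have b3 := right_bd e C hb x A hA1 n (by
    refine hn2.trans ?_
    rw [hA, ← mul_assoc]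
    refine mul_le_mul_of_nonneg_right ?_ hUp.le
    nlinarith)
  have b2 := mid_bd e he C hb hloc x δ hx (by linarith) U A hU1 n
  -- the two ends
  have hs : 1 + η / 3 ≤ (n : ℝ) / (x * U) := by
    rw [le_div_iff₀ (mul_pos hx0 hUp)]
    linarith
  have hs' : (n : ℝ) / (x * U) ≤ 1 + 2 * η / 3 := by
    rw [div_le_iff₀ (mul_pos hx0 hUp)]
    linarith
  have e1 : U ^ n * Real.exp (-((x - 3 / 4) * U)) ≤ n.factorial / x ^ n * Real.exp (-(U / 4)) := by
    have h1 := h_up ((n : ℝ) / (x * U)) (by linarith)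
    have h2 : η ^ 2 / 27 ≤ ((n : ℝ) / (x * U) - 1) ^ 2 / ((n : ℝ) / (x * U) + 1) := by
      rw [div_le_div_iff₀ (by norm_num) (by linarith)]
      have h3 : (η / 3) ^ 2 ≤ ((n : ℝ) / (x * U) - 1) ^ 2 :=
        pow_le_pow_left₀ (by positivity) (by linarith) 2
      have h4 : (n : ℝ) / (x * U) + 1 ≤ 3 := by linarith
      calc η ^ 2 * ((n : ℝ) / (x * U) + 1) ≤ η ^ 2 * 3 := by gcongr
        _ = (η / 3) ^ 2 * 27 := by ring
        _ ≤ ((n : ℝ) / (x * U) - 1) ^ 2 * 27 := by gcongr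
    refine (end_bd x U (η ^ 2 / 27) n hx0 hUp hn1' (h2.trans h1)).trans ?_
    refine mul_le_mul_of_nonneg_left (Real.exp_le_exp.2 ?_) (by positivity)
    have h5 : 1 ≤ x * (η ^ 2 / 27) - 3 / 4 + 3 / 4 := by linarith
    nlinarith
  have e3 : A ^ n * Real.exp (-((x - 3 / 4) * A)) ≤ n.factorial / x ^ n * Real.exp (-(U / 4)) := by
    have hAs : (n : ℝ) / (x * A) = (n : ℝ) / (x * U) / (1 + η) := by
      rw [hA]
      have : 1 + η ≠ 0 := by linarith
      field_simp
    have hs2 : (n : ℝ) / (x * A) ≤ 1 - η / 6 := by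
      rw [hAs, div_le_iff₀ (by linarith)]
      nlinarith
    have hs3 : 0 < (n : ℝ) / (x * A) := by positivity
    have h1 := h_dn ((n : ℝ) / (x * A)) hs3 (by linarith)
    have h2 : η ^ 2 / 72 ≤ (1 - (n : ℝ) / (x * A)) ^ 2 / 2 := by
      have h3 : (η / 6) ^ 2 ≤ (1 - (n : ℝ) / (x * A)) ^ 2 :=
        pow_le_pow_left₀ (by positivity) (by linarith) 2
      linarith
    refine (end_bd x A (η ^ 2 / 72) n hx0 hA0 hn1' (h2.trans h1)).trans ?_
    refine mul_le_mul_of_nonneg_left (Real.exp_le_exp.2 ?_) (by positivity)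
    have h5 : 1 / 4 ≤ x * (η ^ 2 / 72) - 3 / 4 := by linarith
    nlinarith
  -- the sizes
  have hM : 0 < c * (n.factorial / R ^ n) / n := by positivity
  have s1 : E1 ≤ 1 / 8 * (c * (n.factorial / R ^ n) / n) := by
    have h := ha1 n hna1
    rw [div_le_iff₀ hf] at h
    have hn2 : (n : ℝ) ≤ 2 ^ n := by exact_mod_cast (Nat.lt_two_pow_self (n := n)).le
    rw [show 1 / 8 * (c * (n.factorial / R ^ n) / n) = (c / 8 * n.factorial) / (R ^ n * n) by
      field_simp, le_div_iff₀ (by positivity)]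
    calc E1 * (R ^ n * n) ≤ E1 * (R ^ n * 2 ^ n) := by gcongr
      _ = E1 * (2 * R) ^ n := by rw [mul_pow]; ring
      _ ≤ c / 8 * n.factorial := h
  have s2 : n.factorial / (x - δ) ^ (n + 1) ≤ 1 / 8 * (c * (n.factorial / R ^ n) / n) := by
    have h := ha2 n hna2
    rw [div_pow] at h
    rw [show (n.factorial : ℝ) / (x - δ) ^ (n + 1) = n.factorial / (R ^ n * n * (x - δ)) *
      (n * (R ^ n / (x - δ) ^ n)) by rw [pow_succ]; field_simp]
    rw [show 1 / 8 * (c * (n.factorial / R ^ n) / n) = n.factorial / (R ^ n * n * (x - δ)) *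
      (c * (x - δ) / 8) by field_simp]
    exact mul_le_mul_of_nonneg_left h (by positivity)
  have s3 : C * U * (n.factorial / x ^ n * Real.exp (-(U / 4))) ≤
      1 / 8 * (c * (n.factorial / R ^ n) / n) := by
    have h := hsm U hUU0
    have hRn : 1 / x ^ n ≤ 1 / R ^ n :=
      one_div_le_one_div_of_le (by positivity) (pow_le_pow_left₀ hR.le (by linarith) n)
    have h2 : C * (2 * x) * U ^ 2 * Real.exp (-(U / 4)) ≤ c / 8 := by
      have h3 : C * (2 * x) / (c / 8) * U ^ 2 * Real.exp (-(U / 4)) =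
          (C * (2 * x) * U ^ 2 * Real.exp (-(U / 4))) / (c / 8) := by ring
      rw [h3, div_le_one (by positivity)] at h
      exact h
    rw [show 1 / 8 * (c * (n.factorial / R ^ n) / n) = n.factorial * (1 / R ^ n) / n * (c / 8) by
      ring]
    have h4 : C * U * (n.factorial / x ^ n * Real.exp (-(U / 4))) =
        n.factorial * (1 / x ^ n) / n * (C * U * n * Real.exp (-(U / 4))) := by
      field_simp
    rw [h4]
    have h5 : C * U * n * Real.exp (-(U / 4)) ≤ c / 8 := by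
      refine le_trans ?_ h2
      calc C * U * n * Real.exp (-(U / 4)) ≤ C * U * (2 * x * U) * Real.exp (-(U / 4)) := by gcongr
        _ = _ := by ring
    have h6 : 0 ≤ C * U * n * Real.exp (-(U / 4)) := by positivity
    gcongr
  have s4 : C * (n.factorial / x ^ n * Real.exp (-(U / 4))) ≤
      1 / 8 * (c * (n.factorial / R ^ n) / n) := by
    refine le_trans ?_ s3
    refine mul_le_mul_of_nonneg_right ?_ (by positivity)
    nlinarith
  rw [integral_Icc_eq_integral_Ioc, hsum]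
  have key : ∀ (p q s t : ℝ), (p + (q + s)) - t = p + (q - t) + s := by intros; ring
  rw [key]
  refine (abs_add_three _ _ _).trans ?_
  have f1 : C * U * (U ^ n * Real.exp (-((x - 3 / 4) * U))) ≤
      C * U * (n.factorial / x ^ n * Real.exp (-(U / 4))) :=
    mul_le_mul_of_nonneg_left e1 (by positivity)
  have f3 : C * (A ^ n * Real.exp (-((x - 3 / 4) * A))) ≤
      C * (n.factorial / x ^ n * Real.exp (-(U / 4))) :=
    mul_le_mul_of_nonneg_left e3 hC
  linarith

end W3283c
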