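import Pool.Agent.W_3283e1_lw.Tay

set_option autoImplicit false

namespace W3283c

open Complex

/-- The positive half of `rot_B`, with a bound for the length of the blocks. -/
theorem rot_pos (w v : ℂ) (hw : w ≠ 0) (hv : 0 < v.im) (B : ℕ)
    (hB : 2 * Real.pi * ‖v‖ / v.im + 3 ≤ (B : ℝ)) (n : ℕ) :
    ∃ k < B, ‖w‖ * Real.cos (Complex.arg v / 2) * ‖v‖ ^ (n + k) ≤ (w * v ^ (n + k)).re := by
  have hpi := Real.pi_pos
  have hvn : 0 < ‖v‖ := norm_pos_iff.2 (by rintro rfl; simp at hv)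
  have hφ0 : 0 < Complex.arg v := by
    have h1 : 0 ≤ Complex.arg v := Complex.arg_nonneg_iff.mpr hv.le
    have h2 : Complex.arg v ≠ 0 := by
      intro h
      have := (Complex.arg_eq_zero_iff.mp h).2
      linarith
    exact lt_of_le_of_ne h1 (Ne.symm h2)
  have hφ1 : Complex.arg v < Real.pi := Complex.arg_lt_pi_iff.mpr (Or.inr hv.ne')
  have hsin : v.im / ‖v‖ ≤ Complex.arg v := by
    rw [← Complex.sin_arg]
    exact (Real.sin_lt hφ0).le
  set φ := Complex.arg v with hφ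
  set θ := Complex.arg w with hθ
  have hBφ : 2 * Real.pi / φ + 3 ≤ (B : ℝ) := by
    have h1 : 2 * Real.pi / φ ≤ 2 * Real.pi / (v.im / ‖v‖) :=
      div_le_div_of_nonneg_left (by positivity) (div_pos hv hvn) hsin
    have h2 : 2 * Real.pi / (v.im / ‖v‖) = 2 * Real.pi * ‖v‖ / v.im := by
      field_simp
    linarith
  obtain ⟨m, hm1, hm2⟩ : ∃ m : ℤ, θ + n * φ ≤ 2 * Real.pi * m ∧
      2 * Real.pi * m < θ + n * φ + 2 * Real.pi := by
    refine ⟨⌈(θ + n * φ) / (2 * Real.pi)⌉, ?_, ?_⟩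
    · have := Int.le_ceil ((θ + n * φ) / (2 * Real.pi))
      rw [div_le_iff₀ (by positivity)] at this
      linarith
    · have := Int.ceil_lt_add_one ((θ + n * φ) / (2 * Real.pi))
      rw [← sub_lt_iff_lt_add, lt_div_iff₀ (by positivity)] at this
      linarith
  set d : ℝ := (2 * Real.pi * m - (θ + n * φ)) / φ with hd
  have hd0 : 0 ≤ d := div_nonneg (by linarith) hφ0.le
  have hd1 : d < 2 * Real.pi / φ := by
    rw [hd]
    exact div_lt_div_of_pos_right (by linarith) hφ0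
  have hdd : d * φ = 2 * Real.pi * m - (θ + n * φ) := by
    rw [hd]
    field_simp
  have hk := Nat.floor_le (show 0 ≤ d + 1 / 2 by linarith)
  have hk2 := Nat.lt_floor_add_one (d + 1 / 2)
  set k := ⌊d + 1 / 2⌋₊ with hkd
  refine ⟨k, ?_, ?_⟩
  · have h2 : (k : ℝ) < (B : ℝ) := by linarith
    exact_mod_cast h2
  have hv2 : v = ‖v‖ * Complex.exp (φ * Complex.I) := (Complex.norm_mul_exp_arg_mul_I v).symm
  have hw2 : w = ‖w‖ * Complex.exp (θ * Complex.I) := (Complex.norm_mul_exp_arg_mul_I w).symm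
  have hre : (w * v ^ (n + k)).re = ‖w‖ * ‖v‖ ^ (n + k) * Real.cos (θ + (n + k) * φ) := by
    have e1 : w * v ^ (n + k) =
        ((‖w‖ * ‖v‖ ^ (n + k) : ℝ) : ℂ) *
          Complex.exp (((θ + (n + k) * φ : ℝ) : ℂ) * Complex.I) := by
      conv_lhs => rw [hw2, hv2]
      rw [mul_pow, ← Complex.exp_nat_mul]
      push_cast
      have e2 : Complex.exp ((↑θ + (↑n + ↑k) * ↑φ) * Complex.I) =
          Complex.exp (θ * Complex.I) * Complex.exp ((↑n + ↑k) * (φ * Complex.I)) := by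
        rw [← Complex.exp_add]
        congr 1
        ring
      rw [e2]
      ring
    rw [e1, Complex.re_ofReal_mul, Complex.exp_ofReal_mul_I_re]
  rw [hre]
  have hang : Real.cos (φ / 2) ≤ Real.cos (θ + (n + k) * φ) := by
    have e1 : Real.cos (θ + (n + k) * φ) = Real.cos (θ + (n + k) * φ - m * (2 * Real.pi)) := by
      rw [Real.cos_sub_int_mul_two_pi]
    rw [e1, ← Real.cos_abs (θ + (n + k) * φ - m * (2 * Real.pi))]
    have e2 : θ + (n + k) * φ - m * (2 * Real.pi) = (k - d) * φ := by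
      rw [sub_mul, hdd]
      ring
    have e3 : |θ + (n + k) * φ - m * (2 * Real.pi)| ≤ φ / 2 := by
      rw [e2, abs_mul, abs_of_pos hφ0]
      have : |(k : ℝ) - d| ≤ 1 / 2 := by
        rw [abs_le]
        constructor <;> linarith
      calc |(k : ℝ) - d| * φ ≤ 1 / 2 * φ := mul_le_mul_of_nonneg_right this hφ0.le
        _ = φ / 2 := by ring
    exact Real.cos_le_cos_of_nonneg_of_le_pi (abs_nonneg _) (by linarith) e3
  calc ‖w‖ * Real.cos (φ / 2) * ‖v‖ ^ (n + k) = ‖w‖ * ‖v‖ ^ (n + k) * Real.cos (φ / 2) := by ring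
    _ ≤ _ := mul_le_mul_of_nonneg_left hang (by positivity)

/-- Both signs in every block of length `B`. -/
theorem rot_B (w v : ℂ) (hw : w ≠ 0) (hv : 0 < v.im) (B : ℕ)
    (hB : 2 * Real.pi * ‖v‖ / v.im + 3 ≤ (B : ℝ)) :
    ∃ c : ℝ, 0 < c ∧ ∀ n : ℕ, (∃ k < B, c * ‖v‖ ^ (n + k) ≤ (w * v ^ (n + k)).re) ∧
      ∃ k < B, (w * v ^ (n + k)).re ≤ -(c * ‖v‖ ^ (n + k)) := by
  have hpi := Real.pi_pos
  have hφ0 : 0 ≤ Complex.arg v := Complex.arg_nonneg_iff.mpr hv.le
  have hφ1 : Complex.arg v < Real.pi := Complex.arg_lt_pi_iff.mpr (Or.inr hv.ne')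
  have hcos : 0 < Real.cos (Complex.arg v / 2) := by
    apply Real.cos_pos_of_mem_Ioo
    constructor <;> linarith
  have hwn : 0 < ‖w‖ := norm_pos_iff.mpr hw
  refine ⟨‖w‖ * Real.cos (Complex.arg v / 2), by positivity, fun n => ⟨rot_pos w v hw hv B hB n, ?_⟩⟩
  obtain ⟨k, hk, h⟩ := rot_pos (-w) v (neg_ne_zero.mpr hw) hv B hB n
  refine ⟨k, hk, ?_⟩
  rw [norm_neg, neg_mul, Complex.neg_re] at h
  linarith

end W3283c
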