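import Pool.Agent.W_3283e1_h97.LocS
import Pool.Agent.W_3283e1_h97.LocR

set_option autoImplicit false

namespace W3283c

open Complex W3283e1 W3283f W3283l MeasureTheory Filter Topology

/-- The nonreal zeros with real part at least `a > 0` have imaginary parts bounded away from `0`. -/
theorem im_gap (f : ℂ → ℂ) (hf : ∀ s : ℂ, 0 < s.re → AnalyticAt ℂ f s)
    (hne : ∃ s : ℂ, 0 < s.re ∧ f s ≠ 0) (hhalf : ∀ s : ℂ, 0 < s.re → f s = 0 → s.re ≤ 1 / 2)
    (a : ℝ) (ha : 0 < a) :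
    ∃ g : ℝ, 0 < g ∧ ∀ s : ℂ, a ≤ s.re → f s = 0 → s.im ≠ 0 → g ≤ |s.im| := by
  have hfin : {s : ℂ | s ∈ Metric.closedBall (0 : ℂ) 2 ∩ {s : ℂ | a ≤ s.re} ∧ f s = 0}.Finite := by
    refine Near_fin f hf hne ?_ ?_
    · exact (isCompact_closedBall _ _).inter_right (isClosed_le continuous_const continuous_re)
    · rintro s ⟨-, hs⟩
      exact lt_of_lt_of_le ha hs
  have hfin2 : (insert (1 : ℝ) ((fun s : ℂ => |s.im|) ''
      ({s : ℂ | s ∈ Metric.closedBall (0 : ℂ) 2 ∩ {s : ℂ | a ≤ s.re} ∧ f s = 0} ∩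
        {s : ℂ | s.im ≠ 0}))).Finite :=
    ((hfin.inter_of_left _).image _).insert _
  obtain ⟨g, hg, hmin⟩ := Set.exists_min_image _ id hfin2 ⟨1, Set.mem_insert _ _⟩
  have hg0 : 0 < g := by
    rcases hg with h | ⟨s, ⟨_, hs⟩, h⟩
    · rw [h]; exact one_pos
    · rw [← h]
      exact abs_pos.2 hs
  refine ⟨g, hg0, fun s hs h0 him => ?_⟩
  rcases le_or_gt |s.im| 1 with h | h
  · refine hmin |s.im| (Set.mem_insert_of_mem _ ⟨s, ⟨⟨⟨?_, hs⟩, h0⟩, him⟩, rfl⟩)
    rw [mem_closedBall_zero_iff]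
    have h1 := Complex.norm_le_abs_re_add_abs_im s
    have h2 := hhalf s (lt_of_lt_of_le ha hs) h0
    rw [abs_of_nonneg (by linarith)] at h1
    linarith
  · exact (hmin 1 (Set.mem_insert _ _)).trans h.le

/-- The moments `∫ u^n er(u) e^{-xu} du` at arbitrarily large real points `x`. -/
theorem mom_gen (α : ℕ → ℂ) (L W : ℂ → ℂ) (hD : DataR α L W) (κ : ℝ) (r : ℕ)
    (a : ℝ) (ha : 0 < a) :
    ∃ CB : ℝ, 0 < CB ∧ ∀ (s0 : ℂ) (δ : ℝ), L (1 + s0) = 0 → a ≤ δ → δ < s0.re → ∀ x1 : ℝ,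
      ∃ (x R c : ℝ) (B n0 : ℕ), 2 < x ∧ x1 < x ∧ 0 < R ∧ R < x - δ ∧ 0 < c ∧ 1 ≤ B ∧
        (B : ℝ) ≤ CB * x ∧ 1 ≤ n0 ∧
        (∀ n : ℕ, n0 ≤ n → ∃ k < B, c * ((n + k).factorial / R ^ (n + k)) / (n + k) ≤
          ∫ u in Set.Ioi (0 : ℝ), u ^ (n + k) * W3283g.er α κ r u * Real.exp (-(x * u))) ∧
        ((∀ σ : ℝ, 0 < σ → L (1 + σ) ≠ 0) →
          ∀ n : ℕ, n0 ≤ n → ∃ k < B, c * ((n + k).factorial / R ^ (n + k)) / (n + k) ≤
          -∫ u in Set.Ioi (0 : ℝ), u ^ (n + k) * W3283g.er α κ r u * Real.exp (-(x * u))) := by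
  have hfa : ∀ s : ℂ, 0 < s.re → AnalyticAt ℂ (fun s : ℂ => L (1 + s)) s :=
    fun s hs => W3283g.NearR_L L hD.L_diff s hs
  obtain ⟨Q, hQ, _, _, hid⟩ := W3283g.Q_full α L W hD
  have hLne : ∀ s : ℂ, 1 / 2 < s.re → L (1 + s) ≠ 0 := by
    intro s hs h2
    have h1 := hid s hs
    rw [h2] at h1
    refine (hQ s (by linarith)).2 ?_
    rw [← h1]
    ring
  obtain ⟨g, hg, hgap⟩ := im_gap (fun s => L (1 + s)) hfa
    ⟨1, by rw [Complex.one_re]; norm_num, hLne 1 (by rw [Complex.one_re]; norm_num)⟩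
    (fun s _ h0 => by
      by_contra hcon
      push Not at hcon
      exact hLne s hcon h0) a ha
  have hpi := Real.pi_pos
  refine ⟨2 * Real.pi / g + 2, by positivity, fun s0 δ hs0 haδ hδ x1 => ?_⟩
  obtain ⟨x, R', d, mm, y0, Φ, hx, hxx1, hmm, hy0, hy00, hy0r, hyR, hRx, hd, hΦ, hint⟩ :=
    er_sing_gen α L W hD κ r s0 (by linarith) hs0 δ (by linarith) hδ x1
  have hy0n : y0 ≠ 0 := by
    rintro rfl
    simp at hy0r
  have hny : 0 < ‖y0‖ := norm_pos_iff.2 hy0n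
  have hyx : ‖y0‖ < x := by linarith
  set b : ℕ → ℝ := fun n => (n.factorial : ℝ)⁻¹ *
      ∫ u in Set.Ioi (0 : ℝ), u ^ n * W3283g.er α κ r u * Real.exp (-(x * u)) with hb
  have hser : ∀ y : ℂ, ‖y‖ < min d (x - 1 / 2) → HasSum (fun n : ℕ => (2 * (b n : ℂ)) * y ^ n)
      (Φ y - mm * (Complex.log (1 - y / y0) + Complex.log (1 - y / (starRingEnd ℂ y0))) /
        ((x : ℂ) - y)) := by
    intro y hy
    have h1 := (lap_series (W3283g.er α κ r) (W3283g.er_meas α κ r) (1 / 2)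
      (fun σ hσ => W3283g.er_int α hD.norm_α κ r σ hσ) x (by linarith) y
      (lt_of_lt_of_le hy (min_le_right _ _))).mul_left 2
    rw [hint y (lt_of_lt_of_le hy (min_le_left _ _))] at h1
    refine Tay_congr h1 fun n => ?_
    rw [hb]
    ring
  obtain ⟨C, hC, hCn⟩ := taylor x R' (min d (x - 1 / 2)) mm y0 hy0n hyR (by linarith)
    (lt_min hd (by linarith)) Φ hΦ (fun n => 2 * (b n : ℂ)) hser
  have hxy : (x : ℂ) - y0 ≠ 0 := by
    intro h0
    have h1 : (x : ℂ) = y0 := sub_eq_zero.1 h0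
    have h2 : ‖(x : ℂ)‖ = x := by
      rw [Complex.norm_real, Real.norm_eq_abs, abs_of_pos (by linarith)]
    rw [h1] at h2
    linarith
  have hmm' : (1 : ℝ) ≤ (mm : ℝ) := by exact_mod_cast hmm
  -- the main estimate
  have hkey : ∀ c : ℝ, 0 < c → ∀ N : ℕ, 1 ≤ N → C / c ≤ N → ∀ η : ℝ, (η = 1 ∨ η = -1) →
      c * ‖y0⁻¹‖ ^ N ≤ η * (1 / ((x : ℂ) - y0) * y0⁻¹ ^ N).re →
      c / 2 * (N.factorial / ‖y0‖ ^ N) / N ≤
        η * ∫ u in Set.Ioi (0 : ℝ), u ^ N * W3283g.er α κ r u * Real.exp (-(x * u)) := by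
    intro c hc N hN1 hCN η hη hre
    have hN0 : 0 < (N : ℝ) := by exact_mod_cast hN1
    have hfac : 0 < (N.factorial : ℝ) := by exact_mod_cast Nat.factorial_pos N
    have haN : (∫ u in Set.Ioi (0 : ℝ), u ^ N * W3283g.er α κ r u * Real.exp (-(x * u))) =
        N.factorial * b N := by
      rw [hb]
      simp only []
      rw [← mul_assoc, mul_inv_cancel₀ hfac.ne', one_mul]
    have hz2 := hCn N hN1
    set z : ℂ := y0⁻¹ ^ N / ((x : ℂ) - y0) with hzdef
    have hzc : (starRingEnd ℂ y0)⁻¹ ^ N / ((x : ℂ) - starRingEnd ℂ y0) = starRingEnd ℂ z := by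
      rw [hzdef, map_div₀, map_pow, map_inv₀, map_sub, Complex.conj_ofReal]
    have hre' : (1 / ((x : ℂ) - y0) * y0⁻¹ ^ N).re = z.re := by
      rw [hzdef]
      congr 1
      ring
    rw [hzc, Complex.add_conj] at hz2
    have hz3 : (2 * (b N : ℂ) - (mm : ℂ) / (N : ℂ) * ((2 * z.re : ℝ) : ℂ)) =
        ((2 * b N - mm / N * (2 * z.re) : ℝ) : ℂ) := by push_cast; ring
    rw [hz3, Complex.norm_real, Real.norm_eq_abs] at hz2
    rw [hre'] at hre
    have hvn : ‖y0⁻¹‖ = ‖y0‖⁻¹ := norm_inv _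
    rw [hvn] at hre
    set P : ℝ := ‖y0‖⁻¹ ^ N with hP
    have hP0 : 0 < P := by positivity
    have hCN2 : C / (N : ℝ) ≤ c := by
      rw [div_le_iff₀ hN0]
      rw [div_le_iff₀ hc] at hCN
      linarith
    have hηa : mm / N * (2 * (η * z.re)) - C * P / (N : ℝ) ^ 2 ≤ η * (2 * b N) := by
      rcases hη with h | h
      · rw [h, one_mul, one_mul]
        have := (abs_le.1 hz2).1
        linarith
      · rw [h]
        have := (abs_le.1 hz2).2
        linarith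
    have hstep : c / 2 * P / N ≤ η * b N := by
      have h1 : mm / (N : ℝ) * (2 * (c * P)) ≤ mm / N * (2 * (η * z.re)) := by
        apply mul_le_mul_of_nonneg_left _ (by positivity)
        linarith
      have h2 : 1 / (N : ℝ) * (2 * (c * P)) ≤ mm / (N : ℝ) * (2 * (c * P)) := by
        apply mul_le_mul_of_nonneg_right _ (by positivity)
        exact div_le_div_of_nonneg_right hmm' hN0.le
      have h3 : C * P / (N : ℝ) ^ 2 = (C / N) * (P / N) := by
        field_simp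
      have h4 : (C / N) * (P / N) ≤ c * (P / N) :=
        mul_le_mul_of_nonneg_right hCN2 (by positivity)
      have h5 : 1 / (N : ℝ) * (2 * (c * P)) = 2 * (c * P / N) := by ring
      have h6 : c * (P / N) = c * P / N := by ring
      have h7 : c / 2 * P / N = (c * P / N) / 2 := by ring
      rw [h7]
      rw [h3] at hηa
      linarith
    rw [haN]
    have h7 : c / 2 * ((N.factorial : ℝ) / ‖y0‖ ^ N) / N = N.factorial * (c / 2 * P / N) := by
      rw [hP, inv_pow]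
      field_simp
    rw [h7]
    calc (N.factorial : ℝ) * (c / 2 * P / N) ≤ N.factorial * (η * b N) :=
          mul_le_mul_of_nonneg_left hstep hfac.le
      _ = η * (N.factorial * b N) := by ring
  have hRδ : ‖y0‖ < x - δ := by linarith
  have hρre : a ≤ ((x : ℂ) - y0).re := by
    rw [Complex.sub_re, Complex.ofReal_re]
    have h1 := Complex.re_le_norm y0
    linarith
  rcases hy0.eq_or_lt with hi | hi
  · -- a real zero
    have hy0e : y0 = ((y0.re : ℝ) : ℂ) := Complex.ext (by simp) (by simp [hi])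
    have hyn : ‖y0‖ = y0.re := by
      rw [hy0e, Complex.norm_real, Real.norm_eq_abs, Complex.ofReal_re, abs_of_pos hy0r]
    have hxyr : 0 < x - y0.re := by linarith
    set c : ℝ := 1 / (x - y0.re) with hc
    have hc0 : 0 < c := by positivity
    obtain ⟨n1, hn1⟩ := exists_nat_gt (C / c)
    have hBx : ((1 : ℕ) : ℝ) ≤ (2 * Real.pi / g + 2) * x := by
      have h1 : 0 < 2 * Real.pi / g := by positivity
      push_cast
      nlinarith
    refine ⟨x, ‖y0‖, c / 2, 1, n1 + 1, hx, hxx1, hny, hRδ, by positivity, le_rfl, hBx, by omega,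
      fun n hn => ⟨0, one_pos, ?_⟩, fun hreal => ?_⟩
    · have hnr : (n1 : ℝ) ≤ n := by exact_mod_cast (by omega : n1 ≤ n)
      have h1 := hkey c hc0 n (by omega) (by linarith) 1 (Or.inl rfl) (by
        rw [one_mul, norm_inv, hyn]
        have h2 : (1 / ((x : ℂ) - y0) * y0⁻¹ ^ n) = ((c * y0.re⁻¹ ^ n : ℝ) : ℂ) := by
          conv_lhs => rw [hy0e]
          rw [hc]
          push_cast
          ring
        rw [h2, Complex.ofReal_re])
      rw [one_mul] at h1
      simpa using h1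
    · exfalso
      refine hreal (x - y0.re) hxyr ?_
      have h2 : (x : ℂ) - y0 = ((x - y0.re : ℝ) : ℂ) := by
        conv_lhs => rw [hy0e]
        push_cast
        ring
      rw [h2] at hy00
      exact hy00
  · -- a pair
    have hvim : 0 < (y0⁻¹).im := by
      rw [Complex.inv_im]
      exact div_pos (by linarith) (Complex.normSq_pos.2 hy0n)
    have hratio : ‖y0⁻¹‖ / (y0⁻¹).im = ‖y0‖ / (-y0.im) := by
      have h1 : 0 < -y0.im := by linarith
      rw [Complex.inv_im, norm_inv, Complex.normSq_eq_norm_sq]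
      field_simp
    have hgim : g ≤ -y0.im := by
      have h1 := hgap ((x : ℂ) - y0) hρre hy00 (by
        rw [Complex.sub_im, Complex.ofReal_im]
        intro h
        linarith)
      rw [Complex.sub_im, Complex.ofReal_im, zero_sub, abs_of_pos (by linarith)] at h1
      exact h1
    set B : ℕ := ⌈2 * Real.pi * ‖y0⁻¹‖ / (y0⁻¹).im + 3⌉₊ with hB
    obtain ⟨c, hc, hrot⟩ := rot_B (1 / ((x : ℂ) - y0)) y0⁻¹ (one_div_ne_zero hxy) hvim B
      (Nat.le_ceil _)
    have hB1 : 1 ≤ B := by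
      obtain ⟨⟨k, hk, _⟩, _⟩ := hrot 0
      omega
    have hBx : (B : ℝ) ≤ (2 * Real.pi / g + 2) * x := by
      have h1 : (B : ℝ) < 2 * Real.pi * ‖y0⁻¹‖ / (y0⁻¹).im + 3 + 1 := by
        refine Nat.ceil_lt_add_one ?_
        have : 0 ≤ 2 * Real.pi * ‖y0⁻¹‖ / (y0⁻¹).im := by positivity
        linarith
      have h2 : 2 * Real.pi * ‖y0⁻¹‖ / (y0⁻¹).im = 2 * Real.pi * (‖y0‖ / (-y0.im)) := by
        rw [← hratio]
        ring
      have h3 : ‖y0‖ / (-y0.im) ≤ x / g :=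
        div_le_div₀ (by linarith) hyx.le hg hgim
      have h4 : 2 * Real.pi * (‖y0‖ / (-y0.im)) ≤ 2 * Real.pi * (x / g) :=
        mul_le_mul_of_nonneg_left h3 (by positivity)
      have h5 : (2 * Real.pi / g + 2) * x = 2 * Real.pi * (x / g) + 2 * x := by ring
      rw [h5]
      linarith
    obtain ⟨n1, hn1⟩ := exists_nat_gt (C / c)
    refine ⟨x, ‖y0‖, c / 2, B, n1 + 1, hx, hxx1, hny, hRδ, by positivity, hB1, hBx, by omega,
      fun n hn => ?_, fun _ n hn => ?_⟩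
    · obtain ⟨⟨k, hk, hk'⟩, _⟩ := hrot n
      have hnr : (n1 : ℝ) ≤ (n + k : ℕ) := by exact_mod_cast (by omega : n1 ≤ n + k)
      have h1 := hkey c hc (n + k) (by omega) (by linarith) 1 (Or.inl rfl) (by
        rw [one_mul]; exact hk')
      refine ⟨k, hk, ?_⟩
      rw [one_mul] at h1
      exact_mod_cast h1
    · obtain ⟨_, k, hk, hk'⟩ := hrot n
      have hnr : (n1 : ℝ) ≤ (n + k : ℕ) := by exact_mod_cast (by omega : n1 ≤ n + k)
      have h1 := hkey c hc (n + k) (by omega) (by linarith) (-1) (Or.inr rfl) (by linarith)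
      refine ⟨k, hk, ?_⟩
      rw [neg_one_mul] at h1
      exact_mod_cast h1

end W3283c
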