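import Pool.Agent.W_3283e1_h97.LocA
import Pool.Agent.W_3283e1_h97.LocO
import Pool.Agent.W_3283e1_lw.FinA

set_option autoImplicit false

namespace W3283c

open Complex W3283e1 W3283f W3283l MeasureTheory Filter Topology

/-- The error as a function of `u = log x`. -/
noncomputable def ee (n j : ℕ) (l V : ℝ) (r : ℕ) : ℝ → ℝ :=
  W3283g.er (alF n j) (lGold (l / V) r) r

/-- Excursions in every window if there is a zero beyond the line. -/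
theorem er_up_false (k : ℕ) (c : ℤ) (n f i j : ℕ) (L : ℂ → ℂ) (r : ℕ) (l V : ℝ)
    (h : W3283g.SU k c n f i j L r l V) (s0 : ℂ) (δ : ℝ) (hs0 : L s0 = 0) (hδ0 : 0 ≤ δ)
    (hδ : 1 + δ < s0.re) (η : ℝ) (hη : 0 < η) (hη1 : η ≤ 1) :
    ∃ U1 : ℝ, ∀ U : ℝ, U1 ≤ U → ∃ v : ℝ, U ≤ v ∧ v ≤ (1 + η) * U ∧
      Real.exp (δ * v) ≤ ee n j l V r v := by
  have hDR := dataR_fam n j h.hj h.hn h.hs
  have hα := hDR.norm_α
  set δ' : ℝ := (δ + (s0.re - 1)) / 2 with hδ'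
  obtain ⟨CB, hCB, hmom⟩ := mom_gen (alF n j) (LLF n j) WW hDR (lGold (l / V) r) r δ' (by
    rw [hδ']; linarith)
  have hre : (s0 - 1).re = s0.re - 1 := by rw [Complex.sub_re, Complex.one_re]
  obtain ⟨x, R, cc, B, n0, hx, hx1, hR, hRx, hcc, hB, hBx, hn0, hm, -⟩ :=
    hmom (s0 - 1) δ' (by
      refine (h.hzero (s0 - 1) ?_).1 ?_
      · rw [hre]; linarith
      · rw [add_sub_cancel]; exact hs0) le_rfl (by rw [hre, hδ']; linarith) (72 / η ^ 2)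
  obtain ⟨U1, hU1⟩ := loc_pos (ee n j l V r) (W3283g.er_meas _ _ _) _ (FinA_bound _ hα _ _)
    (FinA_loc _ hα _ _) x R cc δ' η hx hR (by rw [hδ']; linarith) hRx hcc hη hη1 hx1.le B n0 1
    (Or.inl rfl) (fun n hn => by
      obtain ⟨k, hk, hkk⟩ := hm n hn
      exact ⟨k, hk, by rw [one_mul]; exact hkk⟩)
  refine ⟨max U1 0, fun U hU => ?_⟩
  obtain ⟨v, h1, h2, h3⟩ := hU1 U ((le_max_left _ _).trans hU)
  have hv : 0 ≤ v := ((le_max_right _ _).trans hU).trans h1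
  refine ⟨v, h1, h2, ?_⟩
  rw [one_mul] at h3
  refine le_trans (Real.exp_le_exp.2 ?_) h3
  exact mul_le_mul_of_nonneg_right (by rw [hδ']; linarith) hv

/-- Alternations in every window if there is a zero beyond the line, and no real one. -/
theorem er_alt_false (k : ℕ) (c : ℤ) (n f i j : ℕ) (L : ℂ → ℂ) (r : ℕ) (l V : ℝ)
    (h : W3283g.SU k c n f i j L r l V) (hreal : ∀ σ : ℝ, 1 < σ → L σ ≠ 0)
    (s0 : ℂ) (δ : ℝ) (hs0 : L s0 = 0) (hδ0 : 0 ≤ δ) (hδ : 1 + δ < s0.re) :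
    ∃ c0 : ℝ, 0 < c0 ∧ ∀ η : ℝ, 0 < η → η ≤ 1 → ∃ U1 : ℝ, ∀ U : ℝ, U1 ≤ U →
      ∃ (N : ℕ) (σ : ℝ) (v : ℕ → ℝ), c0 * (η * U) ≤ N ∧
        (σ = 1 ∨ σ = -1) ∧ (∀ a < N, v a < v (a + 1)) ∧
        ∀ a ≤ N, U ≤ v a ∧ v a ≤ (1 + η) * U ∧
          Real.exp (δ * v a) ≤ σ * (-1) ^ a * ee n j l V r (v a) := by
  have hDR := dataR_fam n j h.hj h.hn h.hs
  have hα := hDR.norm_α
  set δ' : ℝ := (δ + (s0.re - 1)) / 2 with hδ'
  obtain ⟨CB, hCB, hmom⟩ := mom_gen (alF n j) (LLF n j) WW hDR (lGold (l / V) r) r δ' (by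
    rw [hδ']; linarith)
  have hre : (s0 - 1).re = s0.re - 1 := by rw [Complex.sub_re, Complex.one_re]
  refine ⟨1 / (6 * CB), by positivity, fun η hη hη1 => ?_⟩
  obtain ⟨x, R, cc, B, n0, hx, hx1, hR, hRx, hcc, hB, hBx, hn0, hm, hm'⟩ :=
    hmom (s0 - 1) δ' (by
      refine (h.hzero (s0 - 1) ?_).1 ?_
      · rw [hre]; linarith
      · rw [add_sub_cancel]; exact hs0) le_rfl (by rw [hre, hδ']; linarith) (72 / η ^ 2)
  obtain ⟨U1, hU1⟩ := loc_alt (ee n j l V r) (W3283g.er_meas _ _ _) _ (FinA_bound _ hα _ _)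
    (FinA_loc _ hα _ _) x R cc δ' η hx hR (by rw [hδ']; linarith) hRx hcc hη hη1 hx1.le B n0 hB
    CB hCB hBx hm (hm' (fun σ hσ h0 => by
      have h1 : L (1 + (σ : ℂ)) = 0 := (h.hzero (σ : ℂ) (by simpa using hσ.le)).2 h0
      refine hreal (1 + σ) (by linarith) ?_
      push_cast
      exact h1))
  refine ⟨max U1 0, fun U hU => ?_⟩
  obtain ⟨N, σ, v, h1, h2, h3, h4⟩ := hU1 U ((le_max_left _ _).trans hU)
  refine ⟨N, σ, v, h1, h2, h3, fun a ha => ?_⟩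
  obtain ⟨h5, h6, h7⟩ := h4 a ha
  have hv : 0 ≤ v a := ((le_max_right _ _).trans hU).trans h5
  refine ⟨h5, h6, le_trans (Real.exp_le_exp.2 ?_) h7⟩
  exact mul_le_mul_of_nonneg_right (by rw [hδ']; linarith) hv

/-- The Riemann hypothesis: both signs in intervals of bounded length. -/
theorem er_rh (k : ℕ) (c : ℤ) (n f i j : ℕ) (L : ℂ → ℂ) (r : ℕ) (l V : ℝ)
    (h : W3283g.SU k c n f i j L r l V) (hRH : ∀ s : ℂ, 1 < s.re → L s ≠ 0) (K : ℝ) :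
    ∃ D : ℝ, 0 < D ∧ ∀ U : ℝ, 1 ≤ U → ∀ σ : ℝ, (σ = 1 ∨ σ = -1) →
      ∃ u : ℝ, U ≤ u ∧ u ≤ U + D ∧ K / u ≤ σ * ee n j l V r u := by
  have hRH' := rh_LLF k c n f i j L r l V h hRH
  have hlV : l / V ≠ 0 := div_ne_zero h.hl h.hV.ne'
  obtain ⟨hEF, C, hC⟩ := er_AF n j h.hj h.hn h.hs r (l / V) hlV h.hlim' hRH'
  have hZ := zd_fam n j h.hj h.hn h.hs hRH'
  obtain ⟨D, hD, hDD⟩ := alt_abs hZ (AF n j r) hEF (K + C)
  refine ⟨D, hD, fun U hU σ hσ => ?_⟩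
  obtain ⟨⟨u, h1, h2, h3⟩, w, h4, h5, h6⟩ := hDD U hU
  rcases hσ with rfl | rfl
  · refine ⟨u, h1, h2, ?_⟩
    have hu : 0 < u := by linarith
    have h7 := abs_le.1 (hC u (by linarith))
    unfold ee
    rw [div_le_iff₀ hu]
    linarith
  · refine ⟨w, h4, h5, ?_⟩
    have hw : 0 < w := by linarith
    have h7 := abs_le.1 (hC w (by linarith))
    unfold ee
    rw [div_le_iff₀ hw]
    linarith

/-- Alternations in every window under the Riemann hypothesis. -/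
theorem er_alt_rh (k : ℕ) (c : ℤ) (n f i j : ℕ) (L : ℂ → ℂ) (r : ℕ) (l V : ℝ)
    (h : W3283g.SU k c n f i j L r l V) (hRH : ∀ s : ℂ, 1 < s.re → L s ≠ 0) (K : ℝ) :
    ∃ c0 : ℝ, 0 < c0 ∧ ∀ η : ℝ, 0 < η → η ≤ 1 → ∃ U1 : ℝ, ∀ U : ℝ, U1 ≤ U →
      ∃ (N : ℕ) (σ : ℝ) (v : ℕ → ℝ), c0 * (η * U) ≤ N ∧
        (σ = 1 ∨ σ = -1) ∧ (∀ a < N, v a < v (a + 1)) ∧
        ∀ a ≤ N, U ≤ v a ∧ v a ≤ (1 + η) * U ∧
          K / v a ≤ σ * (-1) ^ a * ee n j l V r (v a) := by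
  obtain ⟨D, hD, hDD⟩ := er_rh k c n f i j L r l V h hRH K
  refine ⟨1 / (2 * (D + 1)), by positivity, fun η hη hη1 => ⟨max 1 (4 * (D + 1) / η), ?_⟩⟩
  intro U hU
  have hU1 : 1 ≤ U := (le_max_left _ _).trans hU
  have hU2 : 4 * (D + 1) / η ≤ U := (le_max_right _ _).trans hU
  rw [div_le_iff₀ hη] at hU2
  have h1 : ∀ a : ℕ, ∃ u : ℝ, U + a * (D + 1) ≤ u ∧ u ≤ U + a * (D + 1) + D ∧
      K / u ≤ (-1) ^ a * ee n j l V r u := by
    intro a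
    have h2 : 1 ≤ U + a * (D + 1) := by
      have : 0 ≤ (a : ℝ) * (D + 1) := by positivity
      linarith
    exact hDD _ h2 _ (neg_one_pow_eq_or ℝ a)
  choose v hv1 hv2 hv3 using h1
  have hx : 0 ≤ (η * U - D) / (D + 1) := div_nonneg (by linarith) (by linarith)
  refine ⟨⌊(η * U - D) / (D + 1)⌋₊, 1, v, ?_, Or.inl rfl, fun a _ => ?_, fun a ha => ?_⟩
  · have h2 := Nat.lt_floor_add_one ((η * U - D) / (D + 1))
    have h3 : 1 / (2 * (D + 1)) * (η * U) ≤ (η * U - D) / (D + 1) - 1 := by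
      rw [← sub_nonneg]
      have h4 : (η * U - D) / (D + 1) - 1 - 1 / (2 * (D + 1)) * (η * U) =
          (U * η - (4 * D + 2)) / (2 * (D + 1)) := by
        have : D + 1 ≠ 0 := by linarith
        field_simp
        ring
      rw [h4]
      exact div_nonneg (by linarith) (by linarith)
    linarith
  · have h2 := hv2 a
    have h3 := hv1 (a + 1)
    push_cast at h3
    have h4 : ((a : ℝ) + 1) * (D + 1) = a * (D + 1) + (D + 1) := by ring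
    linarith
  · have h2 : (a : ℝ) ≤ (η * U - D) / (D + 1) :=
      le_trans (by exact_mod_cast ha) (Nat.floor_le hx)
    have h3 : (a : ℝ) * (D + 1) ≤ η * U - D := by
      rwa [le_div_iff₀ (by linarith : (0 : ℝ) < D + 1)] at h2
    have h4 : 0 ≤ (a : ℝ) * (D + 1) := by positivity
    refine ⟨by linarith [hv1 a], ?_, ?_⟩
    · have h5 : (1 + η) * U = U + η * U := by ring
      linarith [hv2 a]
    · rw [one_mul]
      exact hv3 a

end W3283c
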