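import Pool.Agent.W_3283e1_h97.LocF
import Pool.Agent.W_3283e1_lw.FinC

set_option autoImplicit false

namespace W3283c

open Complex W3283e1 W3283f W3283l MeasureTheory Filter Topology

/-- The admitted amplitudes: `K / log x`, or `x ^ δ` if there is a zero with real part larger than `1 + δ`. -/
def Amp (L : ℂ → ℂ) (D : ℝ → ℝ) : Prop :=
  (∃ K : ℝ, 0 < K ∧ ∀ x : ℝ, 1 < x → D x = K / Real.log x) ∨
    ∃ (s0 : ℂ) (δ : ℝ), L s0 = 0 ∧ 0 < δ ∧ 1 + δ < s0.re ∧ ∀ x : ℝ, D x = x ^ δ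

theorem amp_low (L : ℂ → ℂ) (D : ℝ → ℝ) (hD : Amp L D) :
    ∃ K0 : ℝ, 0 < K0 ∧ ∀ v : ℝ, 1 ≤ v → K0 / v ≤ D (Real.exp v) := by
  rcases hD with ⟨K, hK, h⟩ | ⟨s0, δ, -, hδ, -, h⟩
  · refine ⟨K, hK, fun v hv => ?_⟩
    rw [h _ (Real.one_lt_exp_iff.2 (by linarith)), Real.log_exp]
  · refine ⟨1, one_pos, fun v hv => ?_⟩
    rw [h, ← Real.exp_mul]
    have h1 : 1 / v ≤ 1 := by
      rw [div_le_one (by linarith)]
      exact hv
    exact h1.trans (Real.one_le_exp (by nlinarith))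

/-- Excursions above, all curves. -/
theorem er_all_up (k : ℕ) (c : ℤ) (n f i j : ℕ) (L : ℂ → ℂ) (r : ℕ) (l V : ℝ)
    (h : W3283g.SU k c n f i j L r l V) (D : ℝ → ℝ) (hD : Amp L D) (η : ℝ) (hη : 0 < η)
    (hη1 : η ≤ 1) :
    ∃ U1 : ℝ, ∀ U : ℝ, U1 ≤ U → ∃ v : ℝ, U ≤ v ∧ v ≤ (1 + η) * U ∧
      D (Real.exp v) ≤ ee n j l V r v := by
  rcases hD with ⟨K, hK, hD⟩ | ⟨s0, δ, hs0, hδ0, hδ, hD⟩
  · by_cases hRH : ∀ s : ℂ, 1 < s.re → L s ≠ 0
    · obtain ⟨D', hD', hDD⟩ := er_rh k c n f i j L r l V h hRH K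
      refine ⟨max 1 (D' / η), fun U hU => ?_⟩
      have hU1 : 1 ≤ U := (le_max_left _ _).trans hU
      have hU2 : D' / η ≤ U := (le_max_right _ _).trans hU
      rw [div_le_iff₀ hη] at hU2
      obtain ⟨u, h1, h2, h3⟩ := hDD U hU1 1 (Or.inl rfl)
      refine ⟨u, h1, by linarith, ?_⟩
      rw [hD _ (Real.one_lt_exp_iff.2 (by linarith)), Real.log_exp]
      rwa [one_mul] at h3
    · push Not at hRH
      obtain ⟨s0, hs, hs0⟩ := hRH
      obtain ⟨U1, hU1⟩ := er_up_false k c n f i j L r l V h s0 0 hs0 le_rfl (by linarith) η hη hη1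
      refine ⟨max U1 (K + 1), fun U hU => ?_⟩
      obtain ⟨v, h1, h2, h3⟩ := hU1 U ((le_max_left _ _).trans hU)
      have hv : K + 1 ≤ v := ((le_max_right _ _).trans hU).trans h1
      refine ⟨v, h1, h2, ?_⟩
      rw [hD _ (Real.one_lt_exp_iff.2 (by linarith)), Real.log_exp]
      rw [zero_mul, Real.exp_zero] at h3
      refine le_trans ?_ h3
      rw [div_le_one (by linarith)]
      linarith
  · obtain ⟨U1, hU1⟩ := er_up_false k c n f i j L r l V h s0 δ hs0 hδ0.le hδ η hη hη1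
    refine ⟨U1, fun U hU => ?_⟩
    obtain ⟨v, h1, h2, h3⟩ := hU1 U hU
    refine ⟨v, h1, h2, ?_⟩
    rw [hD, ← Real.exp_mul, mul_comm v δ]
    exact h3

/-- Alternations, the first one upwards. -/
theorem er_all_alt (k : ℕ) (c : ℤ) (n f i j : ℕ) (L : ℂ → ℂ) (r : ℕ) (l V : ℝ)
    (h : W3283g.SU k c n f i j L r l V) (hreal : ∀ σ : ℝ, 1 < σ → L σ ≠ 0)
    (D : ℝ → ℝ) (hD : Amp L D) :
    ∃ c0 : ℝ, 0 < c0 ∧ ∀ η : ℝ, 0 < η → η ≤ 1 → ∃ U1 : ℝ, ∀ U : ℝ, U1 ≤ U →
      ∃ (N : ℕ) (v : ℕ → ℝ), c0 * (η * U) ≤ N ∧ (∀ a < N, v a < v (a + 1)) ∧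
        ∀ a ≤ N, U ≤ v a ∧ v a ≤ (1 + η) * U ∧
          D (Real.exp (v a)) ≤ (-1) ^ a * ee n j l V r (v a) := by
  have key : ∃ c0 : ℝ, 0 < c0 ∧ ∀ η : ℝ, 0 < η → η ≤ 1 → ∃ U1 : ℝ, ∀ U : ℝ, U1 ≤ U →
      ∃ (N : ℕ) (σ : ℝ) (v : ℕ → ℝ), c0 * (η * U) ≤ N ∧ (σ = 1 ∨ σ = -1) ∧
        (∀ a < N, v a < v (a + 1)) ∧
        ∀ a ≤ N, U ≤ v a ∧ v a ≤ (1 + η) * U ∧
          D (Real.exp (v a)) ≤ σ * (-1) ^ a * ee n j l V r (v a) := by
    rcases hD with ⟨K, hK, hD⟩ | ⟨s0, δ, hs0, hδ0, hδ, hD⟩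
    · by_cases hRH : ∀ s : ℂ, 1 < s.re → L s ≠ 0
      · obtain ⟨c0, hc0, hh⟩ := er_alt_rh k c n f i j L r l V h hRH K
        refine ⟨c0, hc0, fun η hη hη1 => ?_⟩
        obtain ⟨U1, hU1⟩ := hh η hη hη1
        refine ⟨max U1 1, fun U hU => ?_⟩
        obtain ⟨N, σ, v, h1, h2, h3, h4⟩ := hU1 U ((le_max_left _ _).trans hU)
        refine ⟨N, σ, v, h1, h2, h3, fun a ha => ?_⟩
        obtain ⟨h5, h6, h7⟩ := h4 a ha
        have hv : 1 ≤ v a := ((le_max_right _ _).trans hU).trans h5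
        refine ⟨h5, h6, ?_⟩
        rw [hD _ (Real.one_lt_exp_iff.2 (by linarith)), Real.log_exp]
        exact h7
      · push Not at hRH
        obtain ⟨s0, hs, hs0⟩ := hRH
        obtain ⟨c0, hc0, hh⟩ := er_alt_false k c n f i j L r l V h hreal s0 0 hs0 le_rfl
          (by linarith)
        refine ⟨c0, hc0, fun η hη hη1 => ?_⟩
        obtain ⟨U1, hU1⟩ := hh η hη hη1
        refine ⟨max U1 (K + 1), fun U hU => ?_⟩
        obtain ⟨N, σ, v, h1, h2, h3, h4⟩ := hU1 U ((le_max_left _ _).trans hU)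
        refine ⟨N, σ, v, h1, h2, h3, fun a ha => ?_⟩
        obtain ⟨h5, h6, h7⟩ := h4 a ha
        have hv : K + 1 ≤ v a := ((le_max_right _ _).trans hU).trans h5
        refine ⟨h5, h6, ?_⟩
        rw [hD _ (Real.one_lt_exp_iff.2 (by linarith)), Real.log_exp]
        rw [zero_mul, Real.exp_zero] at h7
        refine le_trans ?_ h7
        rw [div_le_one (by linarith)]
        linarith
    · obtain ⟨c0, hc0, hh⟩ := er_alt_false k c n f i j L r l V h hreal s0 δ hs0 hδ0.le hδ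
      refine ⟨c0, hc0, fun η hη hη1 => ?_⟩
      obtain ⟨U1, hU1⟩ := hh η hη hη1
      refine ⟨U1, fun U hU => ?_⟩
      obtain ⟨N, σ, v, h1, h2, h3, h4⟩ := hU1 U hU
      refine ⟨N, σ, v, h1, h2, h3, fun a ha => ?_⟩
      obtain ⟨h5, h6, h7⟩ := h4 a ha
      refine ⟨h5, h6, ?_⟩
      rw [hD, ← Real.exp_mul, mul_comm (v a) δ]
      exact h7
  obtain ⟨c0, hc0, hh⟩ := key
  refine ⟨c0 / 2, by positivity, fun η hη hη1 => ?_⟩
  obtain ⟨U1, hU1⟩ := hh η hη hη1
  refine ⟨max U1 (2 / (c0 * η)), fun U hU => ?_⟩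
  obtain ⟨N, σ, v, h1, h2, h3, h4⟩ := hU1 U ((le_max_left _ _).trans hU)
  have hU2 : 2 / (c0 * η) ≤ U := (le_max_right _ _).trans hU
  rw [div_le_iff₀ (by positivity)] at hU2
  have hU3 : 2 ≤ c0 * (η * U) := by linarith
  rcases h2 with rfl | rfl
  · refine ⟨N, v, by linarith, h3, fun a ha => ?_⟩
    have h5 := h4 a ha
    rw [one_mul] at h5
    exact h5
  · have hN : 1 ≤ N := by
      by_contra hN
      have : N = 0 := by omega
      rw [this] at h1
      push_cast at h1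
      linarith
    obtain ⟨M, rfl⟩ : ∃ M, N = M + 1 := ⟨N - 1, by omega⟩
    refine ⟨M, fun a => v (a + 1), ?_, fun a ha => h3 (a + 1) (by omega), fun a ha => ?_⟩
    · push_cast at h1
      linarith
    · have h5 := h4 (a + 1) (by omega)
      refine ⟨h5.1, h5.2.1, h5.2.2.trans (le_of_eq ?_)⟩
      rw [pow_succ]
      ring

theorem exp_gap (t : ℝ) (ht : 0 ≤ t) (ht1 : t ≤ 1) : Real.exp (-t) ≤ 1 - t / 2 := by
  have h1 := Real.add_one_le_exp t
  rw [Real.exp_neg, inv_le_comm₀ (Real.exp_pos _) (by linarith)]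
  refine le_trans ?_ h1
  rw [inv_le_comm₀ (by linarith) (by linarith), ← one_div, div_le_iff₀ (by linarith)]
  nlinarith

/-- Excursions of the product above, in every window, for all the curves. -/
theorem main_up (k : ℕ) (c : ℤ) (n f i j : ℕ) (L : ℂ → ℂ) (r : ℕ) (l V : ℝ)
    (h : W3283g.SU k c n f i j L r l V) (D : ℝ → ℝ) (hD : Amp L D) (η : ℝ) (hη : 0 < η)
    (hη1 : η ≤ 1) :
    ∃ X0 : ℝ, ∀ X : ℝ, X0 ≤ X → ∃ x : ℝ, X ≤ x ∧ x ≤ X ^ (1 + η) ∧
      CG r l * (Real.log x) ^ r * Real.exp (D x) ≤ bsdProd (c * k ^ 2) 0 x := by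
  obtain ⟨U1, hU1⟩ := er_all_up k c n f i j L r l V h D hD η hη hη1
  have hk0 : (0 : ℝ) < k := by exact_mod_cast h.hk
  refine ⟨Real.exp (max U1 (1 + Real.log (k + 10))), fun X hX => ?_⟩
  have hX0 : 0 < X := lt_of_lt_of_le (Real.exp_pos _) hX
  have hXU : max U1 (1 + Real.log (k + 10)) ≤ Real.log X := by
    rw [Real.le_log_iff_exp_le hX0]
    exact hX
  obtain ⟨v, h1, h2, h3⟩ := hU1 (Real.log X) ((le_max_left _ _).trans hXU)
  have hlog : 0 ≤ Real.log ((k : ℝ) + 10) := Real.log_nonneg (by linarith)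
  have hv : 1 + Real.log (k + 10) ≤ v := ((le_max_right _ _).trans hXU).trans h1
  have hlk : Real.log k ≤ Real.log ((k : ℝ) + 10) := Real.log_le_log hk0 (by linarith)
  refine ⟨Real.exp v, ?_, ?_, ?_⟩
  · rw [← Real.exp_log hX0]
    exact Real.exp_le_exp.2 h1
  · rw [Real.rpow_def_of_pos hX0]
    apply Real.exp_le_exp.2
    linarith
  · rw [Real.log_exp, P_er k c n f i j L r l V h v (by linarith) (by linarith)]
    refine mul_le_mul_of_nonneg_left (Real.exp_le_exp.2 h3) ?_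
    exact (mul_pos (CG_pos r l h.hl) (pow_pos (by linarith) r)).le

/-- Alternations and crossings of the product in every window `[X, X^{1+η}]`. -/
theorem main_loc (k : ℕ) (c : ℤ) (n f i j : ℕ) (L : ℂ → ℂ) (r : ℕ) (l V : ℝ)
    (h : W3283g.SU k c n f i j L r l V) (hreal : ∀ σ : ℝ, 1 < σ → L σ ≠ 0)
    (D : ℝ → ℝ) (hD : Amp L D) :
    ∃ c0 : ℝ, 0 < c0 ∧ ∀ η : ℝ, 0 < η → η ≤ 1 → ∃ X0 : ℝ, ∀ X : ℝ, X0 ≤ X →
      ∃ (N : ℕ) (x y : ℕ → ℝ), c0 * (η * Real.log X) ≤ N ∧ X ≤ x 0 ∧ x N ≤ X ^ (1 + η) ∧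
      (∀ a < N, x a < y a ∧ y a < x (a + 1) ∧
        |bsdProd (c * k ^ 2) 0 (y a) / (CG r l * (Real.log (y a)) ^ r) - 1| ≤
          5 / Real.sqrt (y a)) ∧
      ∀ a ≤ N,
        (Even a → CG r l * (Real.log (x a)) ^ r * Real.exp (D (x a)) ≤
          bsdProd (c * k ^ 2) 0 (x a)) ∧
        (¬ Even a → bsdProd (c * k ^ 2) 0 (x a) ≤
          CG r l * (Real.log (x a)) ^ r * Real.exp (-D (x a))) := by
  classical
  obtain ⟨K0, hK0, hlow⟩ := amp_low L D hD
  obtain ⟨c0, hc0, hh⟩ := er_all_alt k c n f i j L r l V h hreal D hD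
  refine ⟨c0, hc0, fun η hη hη1 => ?_⟩
  obtain ⟨U1, hU1⟩ := hh η hη hη1
  set e : ℝ → ℝ := ee n j l V r with he
  set u0 : ℝ := 1 + Real.log (k + 10) + K0 + 80 / K0 with hu0
  have hk0 : (0 : ℝ) < k := by exact_mod_cast h.hk
  have hlog : 0 ≤ Real.log ((k : ℝ) + 10) := Real.log_nonneg (by linarith)
  have h80 : 0 < 80 / K0 := by positivity
  refine ⟨Real.exp (max U1 u0), fun X hX => ?_⟩
  have hX0 : 0 < X := lt_of_lt_of_le (Real.exp_pos _) hX
  have hXU : max U1 u0 ≤ Real.log X := by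
    rw [Real.le_log_iff_exp_le hX0]
    exact hX
  have hXu : u0 ≤ Real.log X := (le_max_right _ _).trans hXU
  obtain ⟨N, v, h1, h2, h3⟩ := hU1 (Real.log X) ((le_max_left _ _).trans hXU)
  -- the values at the points
  have hval : ∀ u : ℝ, u0 ≤ u → 0 < CG r l * u ^ r ∧
      bsdProd (c * k ^ 2) 0 (Real.exp u) = CG r l * u ^ r * Real.exp (e u) ∧
      10 ≤ Real.exp u := by
    intro u hu
    have hu' : 0 < u := by linarith
    have hlk : Real.log k ≤ Real.log ((k : ℝ) + 10) := Real.log_le_log hk0 (by linarith)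
    refine ⟨mul_pos (CG_pos r l h.hl) (pow_pos hu' r),
      P_er k c n f i j L r l V h u hu' (by linarith), ?_⟩
    have h4 : Real.log ((k : ℝ) + 10) ≤ u := by linarith
    have h5 := Real.exp_le_exp.2 h4
    rw [Real.exp_log (by linarith)] at h5
    linarith
  have hsgn : ∀ a ≤ N, (Even a → Real.exp (D (Real.exp (v a))) ≤ Real.exp (e (v a))) ∧
      (¬ Even a → Real.exp (e (v a)) ≤ Real.exp (-D (Real.exp (v a)))) := by
    intro a ha
    obtain ⟨h4, h5, h6⟩ := h3 a ha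
    constructor
    · intro hev
      rw [hev.neg_one_pow, one_mul] at h6
      exact Real.exp_le_exp.2 h6
    · intro hod
      rw [(Nat.not_even_iff_odd.1 hod).neg_one_pow, neg_one_mul] at h6
      exact Real.exp_le_exp.2 (by linarith)
  have hgap : ∀ a ≤ N, u0 ≤ v a ∧ (Even a → 1 + K0 / 2 / v a ≤ Real.exp (e (v a))) ∧
      (¬ Even a → Real.exp (e (v a)) ≤ 1 - K0 / 2 / v a) := by
    intro a ha
    obtain ⟨h4, h5, h6⟩ := h3 a ha
    have hva : u0 ≤ v a := hXu.trans h4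
    have hv0 : 0 < v a := by linarith
    have h7 := hlow (v a) (by linarith)
    have h8 : 0 < K0 / v a := by positivity
    have h9 : K0 / v a ≤ 1 := by
      rw [div_le_one hv0]
      linarith
    have h10 : K0 / 2 / v a = K0 / v a / 2 := by ring
    refine ⟨hva, fun hev => ?_, fun hod => ?_⟩
    · refine le_trans ?_ ((hsgn a ha).1 hev)
      have h11 := Real.add_one_le_exp (D (Real.exp (v a)))
      linarith
    · refine ((hsgn a ha).2 hod).trans ?_
      refine (Real.exp_le_exp.2 (neg_le_neg h7)).trans ?_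
      rw [h10]
      exact exp_gap _ h8.le h9
  have hquo : ∀ a ≤ N, K0 / 2 / v a ≤
      |bsdProd (c * k ^ 2) 0 (Real.exp (v a)) /
        (CG r l * (Real.log (Real.exp (v a))) ^ r) - 1| := by
    intro a ha
    obtain ⟨h4, h5, h6⟩ := hgap a ha
    obtain ⟨g1, g2, g3⟩ := hval (v a) h4
    rw [Real.log_exp, g2, mul_div_cancel_left₀ _ g1.ne']
    by_cases hev : Even a
    · have h7 := h5 hev
      exact le_abs.2 (Or.inl (by linarith))
    · have h7 := h6 hev
      exact le_abs.2 (Or.inr (by linarith))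
  have hsm : ∀ a ≤ N, 5 / Real.sqrt (Real.exp (v a)) < K0 / 2 / v a := by
    intro a ha
    refine FinC_small (K0 / 2) (v a) (by linarith) ?_
    have h4 := (hgap a ha).1
    have h5 : 40 / (K0 / 2) = 80 / K0 := by
      field_simp
      norm_num
    rw [h5]
    linarith
  have hex : ∀ a : ℕ, ∃ y : ℝ, a < N → Real.exp (v a) < y ∧ y < Real.exp (v (a + 1)) ∧
      |bsdProd (c * k ^ 2) 0 y / (CG r l * (Real.log y) ^ r) - 1| ≤ 5 / Real.sqrt y := by
    intro a
    by_cases ha : a < N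
    · obtain ⟨h4, h5, h6⟩ := hgap a ha.le
      obtain ⟨g1, g2, g3⟩ := hval (v a) h4
      obtain ⟨h4', h5', h6'⟩ := hgap (a + 1) ha
      obtain ⟨g1', g2', g3'⟩ := hval (v (a + 1)) h4'
      have hxy : Real.exp (v a) < Real.exp (v (a + 1)) := Real.exp_lt_exp.2 (h2 a ha)
      have hk1 : 0 < K0 / 2 / v a := div_pos (by linarith) (by linarith)
      have hk2 : 0 < K0 / 2 / v (a + 1) := div_pos (by linarith) (by linarith)
      have hprod : (bsdProd (c * k ^ 2) 0 (Real.exp (v a)) -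
          CG r l * (Real.log (Real.exp (v a))) ^ r) *
          (bsdProd (c * k ^ 2) 0 (Real.exp (v (a + 1))) -
          CG r l * (Real.log (Real.exp (v (a + 1)))) ^ r) < 0 := by
        rw [Real.log_exp, Real.log_exp, g2, g2']
        have e1 : CG r l * v a ^ r * Real.exp (e (v a)) - CG r l * v a ^ r =
            CG r l * v a ^ r * (Real.exp (e (v a)) - 1) := by ring
        have e2 : CG r l * v (a + 1) ^ r * Real.exp (e (v (a + 1))) - CG r l * v (a + 1) ^ r =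
            CG r l * v (a + 1) ^ r * (Real.exp (e (v (a + 1))) - 1) := by ring
        rw [e1, e2]
        by_cases hev : Even a
        · have h7 := h5 hev
          have h8 := h6' (by
            rw [Nat.even_add_one]
            exact not_not.2 hev)
          exact mul_neg_of_pos_of_neg (mul_pos g1 (by linarith))
            (mul_neg_of_pos_of_neg g1' (by linarith))
        · have h7 := h6 hev
          have h8 := h5' (by
            rw [Nat.even_add_one]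
            exact hev)
          exact mul_neg_of_neg_of_pos (mul_neg_of_pos_of_neg g1 (by linarith))
            (mul_pos g1' (by linarith))
      obtain ⟨z, hz1, hz2, hz3⟩ := cross k c n f i j L r l V h _ _ g3 hxy hprod
      refine ⟨z, fun _ => ⟨lt_of_le_of_ne hz1 ?_, lt_of_le_of_ne hz2 ?_, hz3⟩⟩
      · rintro rfl
        have h7 := hquo a ha.le
        have h8 := hsm a ha.le
        linarith
      · rintro rfl
        have h7 := hquo (a + 1) ha
        have h8 := hsm (a + 1) ha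
        linarith
    · exact ⟨0, fun ha' => absurd ha' ha⟩
  choose y hy using hex
  refine ⟨N, fun a => Real.exp (v a), y, h1, ?_, ?_, fun a ha => hy a ha, fun a ha => ?_⟩
  · show X ≤ Real.exp (v 0)
    have h4 := (h3 0 (Nat.zero_le N)).1
    have h5 := Real.exp_le_exp.2 h4
    rwa [Real.exp_log hX0] at h5
  · show Real.exp (v N) ≤ X ^ (1 + η)
    have h4 := (h3 N le_rfl).2.1
    rw [Real.rpow_def_of_pos hX0]
    apply Real.exp_le_exp.2
    linarith
  · obtain ⟨h4, -, -⟩ := hgap a ha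
    obtain ⟨g1, g2, g3⟩ := hval (v a) h4
    have h7 := hsgn a ha
    show (Even a → CG r l * (Real.log (Real.exp (v a))) ^ r *
        Real.exp (D (Real.exp (v a))) ≤ bsdProd (c * k ^ 2) 0 (Real.exp (v a))) ∧
      (¬ Even a → bsdProd (c * k ^ 2) 0 (Real.exp (v a)) ≤
        CG r l * (Real.log (Real.exp (v a))) ^ r * Real.exp (-D (Real.exp (v a))))
    rw [Real.log_exp, g2]
    exact ⟨fun hev => mul_le_mul_of_nonneg_left (h7.1 hev) g1.le,
      fun hod => mul_le_mul_of_nonneg_left (h7.2 hod) g1.le⟩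

end W3283c
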