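import Pool.Agent.W_3283e1_lw.AltM

set_option autoImplicit false

namespace W3283c

open MeasureTheory Filter Topology W3283l

theorem h_up (s : ℝ) (hs : 1 ≤ s) : (s - 1) ^ 2 / (s + 1) ≤ s * Real.log s - s + 1 := by
  have h1 := Real.le_log_one_add_of_nonneg (x := s - 1) (by linarith)
  have h2 : 1 + (s - 1) = s := by ring
  have h3 : s - 1 + 2 = s + 1 := by ring
  rw [h2, h3] at h1
  have h4 : s * (2 * (s - 1) / (s + 1)) ≤ s * Real.log s :=
    mul_le_mul_of_nonneg_left h1 (by linarith)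
  have h5 : (s - 1) ^ 2 / (s + 1) = s * (2 * (s - 1) / (s + 1)) - s + 1 := by
    have : s + 1 ≠ 0 := by linarith
    field_simp
    ring
  linarith

theorem h_dn (s : ℝ) (hs0 : 0 < s) (hs : s ≤ 1) : (1 - s) ^ 2 / 2 ≤ s * Real.log s - s + 1 := by
  have h1 : 0 ≤ Real.log s⁻¹ := Real.log_nonneg ((one_le_inv₀ hs0).2 hs)
  have h2 : Real.log s⁻¹ ≤ Real.sinh (Real.log s⁻¹) := Real.self_le_sinh_iff.2 h1
  rw [Real.sinh_eq, Real.exp_neg, Real.exp_log (inv_pos.2 hs0), inv_inv, Real.log_inv] at h2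
  have h3 : s * (-Real.log s) ≤ s * ((s⁻¹ - s) / 2) := mul_le_mul_of_nonneg_left h2 hs0.le
  have h4 : s * ((s⁻¹ - s) / 2) = (1 - s ^ 2) / 2 := by
    field_simp
  rw [h4] at h3
  nlinarith

/-- Comparison of the kernel at the ends of the window with its integral. -/
theorem end_bd (x B q : ℝ) (n : ℕ) (hx : 0 < x) (hB : 0 < B) (hn : 1 ≤ n)
    (hq : q ≤ (n / (x * B)) * Real.log (n / (x * B)) - n / (x * B) + 1) :
    B ^ n * Real.exp (-((x - 3 / 4) * B)) ≤
      n.factorial / x ^ n * Real.exp (-((x * q - 3 / 4) * B)) := by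
  have hn0 : (0 : ℝ) < n := by exact_mod_cast hn
  have hf : (0 : ℝ) < n.factorial := by exact_mod_cast Nat.factorial_pos n
  have h1 := Real.pow_div_factorial_le_exp (n : ℝ) hn0.le n
  rw [div_le_iff₀ hf] at h1
  have h2 : (n : ℝ) ^ n * Real.exp (-n) ≤ n.factorial := by
    rw [Real.exp_neg, ← div_eq_mul_inv, div_le_iff₀ (Real.exp_pos _)]
    linarith
  have h3 : B ^ n * Real.exp (-((x - 3 / 4) * B)) ≤
      (n : ℝ) ^ n * Real.exp (-n) / x ^ n * Real.exp (-((x * q - 3 / 4) * B)) := by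
    have e1 : B ^ n = Real.exp (n * Real.log B) := by
      rw [Real.exp_nat_mul, Real.exp_log hB]
    have e2 : (n : ℝ) ^ n = Real.exp (n * Real.log n) := by
      rw [Real.exp_nat_mul, Real.exp_log hn0]
    have e3 : x ^ n = Real.exp (n * Real.log x) := by
      rw [Real.exp_nat_mul, Real.exp_log hx]
    rw [e1, e2, e3, ← Real.exp_add, ← Real.exp_add, ← Real.exp_sub, ← Real.exp_add]
    apply Real.exp_le_exp.2
    have hxB : 0 < x * B := mul_pos hx hB
    rw [Real.log_div hn0.ne' hxB.ne', Real.log_mul hx.ne' hB.ne'] at hq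
    have h4 := mul_le_mul_of_nonneg_left hq hxB.le
    have h5 : x * B * ((n : ℝ) / (x * B) * (Real.log n - (Real.log x + Real.log B)) -
        n / (x * B) + 1) = n * (Real.log n - (Real.log x + Real.log B)) - n + x * B := by
      field_simp
    rw [h5] at h4
    linarith
  refine h3.trans (mul_le_mul_of_nonneg_right ?_ (Real.exp_pos _).le)
  exact div_le_div_of_nonneg_right h2 (by positivity)

theorem pow_ratio (u U : ℝ) (hu : 0 ≤ u) (hU : 0 < U) (n : ℕ) :
    u ^ n ≤ U ^ n * Real.exp (n * (u / U - 1)) := by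
  have h1 : u / U ≤ Real.exp (u / U - 1) := by
    have := Real.add_one_le_exp (u / U - 1)
    linarith
  have h2 := pow_le_pow_left₀ (div_nonneg hu hU.le) h1 n
  rw [div_pow, ← Real.exp_nat_mul, div_le_iff₀ (pow_pos hU n)] at h2
  linarith

/-- Left of the window. -/
theorem left_bd (e : ℝ → ℝ) (he : Measurable e) (C : ℝ) (hC : 0 ≤ C)
    (hb : ∀ u : ℝ, 1 ≤ u → |e u| ≤ C * Real.exp (3 / 4 * u)) (hloc : IntegrableOn e (Set.Ioc 0 1))
    (x : ℝ) (hx : 2 < x) (U : ℝ) (hU : 1 ≤ U) (n : ℕ) (hn : (x - 3 / 4) * U ≤ n) :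
    |∫ u in Set.Ioc (0 : ℝ) U, u ^ n * e u * Real.exp (-(x * u))| ≤
      (∫ u in Set.Ioc 0 1, |e u|) + C * U * (U ^ n * Real.exp (-((x - 3 / 4) * U))) := by
  have hint := altM_int_e e he C hb hloc x hx n
  have hI1 : IntegrableOn (fun u : ℝ => u ^ n * e u * Real.exp (-(x * u))) (Set.Ioc 0 1) :=
    hint.mono_set Set.Ioc_subset_Ioi_self
  have hI2 : IntegrableOn (fun u : ℝ => u ^ n * e u * Real.exp (-(x * u))) (Set.Ioc 1 U) :=
    hint.mono_set (fun u hu => lt_trans one_pos hu.1)
  have hd : Disjoint (Set.Ioc (0 : ℝ) 1) (Set.Ioc 1 U) :=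
    Set.disjoint_left.2 fun u hu hu' => absurd hu.2 (not_le.2 hu'.1)
  rw [← Set.Ioc_union_Ioc_eq_Ioc (zero_le_one' ℝ) hU, setIntegral_union hd measurableSet_Ioc hI1 hI2]
  have h1 : |∫ u in Set.Ioc (0 : ℝ) 1, u ^ n * e u * Real.exp (-(x * u))| ≤
      ∫ u in Set.Ioc 0 1, |e u| := by
    rw [← Real.norm_eq_abs]
    refine norm_integral_le_of_norm_le hloc.norm ?_
    refine (ae_restrict_iff' measurableSet_Ioc).2 (Eventually.of_forall fun u hu => ?_)
    rw [Real.norm_eq_abs, abs_mul, abs_mul, abs_of_nonneg (pow_nonneg hu.1.le n), Real.abs_exp]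
    have h1 : u ^ n ≤ 1 := pow_le_one₀ hu.1.le hu.2
    have h2 : Real.exp (-(x * u)) ≤ 1 := by
      rw [Real.exp_le_one_iff]
      have : 0 ≤ x * u := mul_nonneg (by linarith) hu.1.le
      linarith
    calc u ^ n * |e u| * Real.exp (-(x * u)) ≤ 1 * |e u| * 1 := by gcongr
      _ = |e u| := by ring
  have h2 : |∫ u in Set.Ioc (1 : ℝ) U, u ^ n * e u * Real.exp (-(x * u))| ≤
      C * U * (U ^ n * Real.exp (-((x - 3 / 4) * U))) := by
    have hbd : ∀ u ∈ Set.Ioc (1 : ℝ) U, ‖u ^ n * e u * Real.exp (-(x * u))‖ ≤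
        C * (U ^ n * Real.exp (-((x - 3 / 4) * U))) := by
      intro u hu
      have hu0 : 0 < u := lt_trans one_pos hu.1
      have hU0 : 0 < U := by linarith
      rw [Real.norm_eq_abs, abs_mul, abs_mul, abs_of_nonneg (pow_nonneg hu0.le n), Real.abs_exp]
      have h3 := pow_ratio u U hu0.le hU0 n
      have h4 : (n : ℝ) * (u / U - 1) ≤ (x - 3 / 4) * (u - U) := by
        have h5 : (n : ℝ) * (u / U - 1) = n / U * (u - U) := by
          field_simp
        have h6 : x - 3 / 4 ≤ n / U := by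
          rw [le_div_iff₀ hU0]
          exact hn
        rw [h5]
        exact mul_le_mul_of_nonpos_right h6 (by linarith [hu.2])
      calc u ^ n * |e u| * Real.exp (-(x * u)) ≤
          (U ^ n * Real.exp ((x - 3 / 4) * (u - U))) * (C * Real.exp (3 / 4 * u)) *
            Real.exp (-(x * u)) := by
            have h7 : u ^ n ≤ U ^ n * Real.exp ((x - 3 / 4) * (u - U)) :=
              h3.trans (mul_le_mul_of_nonneg_left (Real.exp_le_exp.2 h4) (by positivity))
            have h8 := hb u hu.1.le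
            gcongr
        _ = C * (U ^ n * (Real.exp ((x - 3 / 4) * (u - U)) * Real.exp (3 / 4 * u) *
            Real.exp (-(x * u)))) := by ring
        _ = C * (U ^ n * Real.exp (-((x - 3 / 4) * U))) := by
            rw [← Real.exp_add, ← Real.exp_add]
            congr 3
            ring
    have h3 := norm_setIntegral_le_of_norm_le_const (μ := volume) (s := Set.Ioc (1 : ℝ) U)
      (by simp) hbd
    rw [Real.norm_eq_abs] at h3
    refine h3.trans ?_
    have h4 : volume.real (Set.Ioc (1 : ℝ) U) ≤ U := by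
      rw [Real.volume_real_Ioc_of_le hU]
      linarith
    calc C * (U ^ n * Real.exp (-((x - 3 / 4) * U))) * volume.real (Set.Ioc (1 : ℝ) U)
        ≤ C * (U ^ n * Real.exp (-((x - 3 / 4) * U))) * U := by gcongr
      _ = _ := by ring
  exact (abs_add_le _ _).trans (add_le_add h1 h2)

/-- Right of the window. -/
theorem right_bd (e : ℝ → ℝ) (C : ℝ)
    (hb : ∀ u : ℝ, 1 ≤ u → |e u| ≤ C * Real.exp (3 / 4 * u))
    (x : ℝ) (A : ℝ) (hA : 1 ≤ A) (n : ℕ) (hn : (n : ℝ) ≤ (x - 7 / 4) * A) :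
    |∫ u in Set.Ioi A, u ^ n * e u * Real.exp (-(x * u))| ≤
      C * (A ^ n * Real.exp (-((x - 3 / 4) * A))) := by
  have hA0 : 0 < A := by linarith
  have hexp : ∫ u in Set.Ioi A, Real.exp (-u) = Real.exp (-A) := integral_exp_neg_Ioi A
  have hi : IntegrableOn (fun u : ℝ => Real.exp (-u)) (Set.Ioi A) := by
    have := integrableOn_exp_mul_Ioi (a := -1) (by norm_num) A
    simpa using this
  have h1 : |∫ u in Set.Ioi A, u ^ n * e u * Real.exp (-(x * u))| ≤
      ∫ u in Set.Ioi A, C * (A ^ n * Real.exp (-((x - 7 / 4) * A))) * Real.exp (-u) := by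
    rw [← Real.norm_eq_abs]
    refine norm_integral_le_of_norm_le (hi.const_mul _) ?_
    refine (ae_restrict_iff' measurableSet_Ioi).2 (Eventually.of_forall fun u hu => ?_)
    have hu1 : A < u := hu
    have hu0 : 0 < u := hA0.trans hu1
    rw [Real.norm_eq_abs, abs_mul, abs_mul, abs_of_nonneg (pow_nonneg hu0.le n), Real.abs_exp]
    have h3 := pow_ratio u A hu0.le hA0 n
    have h4 : (n : ℝ) * (u / A - 1) ≤ (x - 7 / 4) * (u - A) := by
      have h5 : (n : ℝ) * (u / A - 1) = n / A * (u - A) := by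
        field_simp
      have h6 : n / A ≤ x - 7 / 4 := by
        rw [div_le_iff₀ hA0]
        exact hn
      rw [h5]
      exact mul_le_mul_of_nonneg_right h6 (by linarith)
    have h7 : u ^ n ≤ A ^ n * Real.exp ((x - 7 / 4) * (u - A)) :=
      h3.trans (mul_le_mul_of_nonneg_left (Real.exp_le_exp.2 h4) (by positivity))
    have h8 := hb u (by linarith)
    calc u ^ n * |e u| * Real.exp (-(x * u)) ≤
        (A ^ n * Real.exp ((x - 7 / 4) * (u - A))) * (C * Real.exp (3 / 4 * u)) *
          Real.exp (-(x * u)) := by gcongr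
      _ = C * (A ^ n * (Real.exp ((x - 7 / 4) * (u - A)) * Real.exp (3 / 4 * u) *
          Real.exp (-(x * u)))) := by ring
      _ = C * (A ^ n * (Real.exp (-((x - 7 / 4) * A)) * Real.exp (-u))) := by
          rw [← Real.exp_add, ← Real.exp_add, ← Real.exp_add]
          congr 3
          ring
      _ = _ := by ring
  refine h1.trans (le_of_eq ?_)
  rw [integral_const_mul, hexp]
  calc C * (A ^ n * Real.exp (-((x - 7 / 4) * A))) * Real.exp (-A)
      = C * (A ^ n * (Real.exp (-((x - 7 / 4) * A)) * Real.exp (-A))) := by ring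
    _ = _ := by
      rw [← Real.exp_add]
      congr 3
      ring

/-- Inside the window. -/
theorem mid_bd (e : ℝ → ℝ) (he : Measurable e) (C : ℝ)
    (hb : ∀ u : ℝ, 1 ≤ u → |e u| ≤ C * Real.exp (3 / 4 * u)) (hloc : IntegrableOn e (Set.Ioc 0 1))
    (x δ : ℝ) (hx : 2 < x) (hδ : δ < x) (U A : ℝ) (hU : 1 ≤ U) (n : ℕ) :
    |(∫ u in Set.Ioc U A, u ^ n * e u * Real.exp (-(x * u))) -
      ∫ u in Set.Ioc U A, u ^ n * (Real.exp (-(x * u)) * altMsoft (e u) (Real.exp (δ * u)))| ≤
      n.factorial / (x - δ) ^ (n + 1) := by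
  have hint := altM_int_e e he C hb hloc x hx n
  have hI2 : IntegrableOn (fun u : ℝ => u ^ n * e u * Real.exp (-(x * u))) (Set.Ioc U A) :=
    hint.mono_set (fun u hu => lt_trans (by linarith) hu.1)
  have hmS : Measurable (fun u : ℝ => altMsoft (e u) (Real.exp (δ * u))) := by
    unfold altMsoft
    have hK : Measurable (fun u : ℝ => Real.exp (δ * u)) := by fun_prop
    refine Measurable.ite (measurableSet_lt hK he) (he.sub hK) ?_
    exact Measurable.ite (measurableSet_lt he hK.neg) (he.add hK) measurable_const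
  have hIs : IntegrableOn (fun u : ℝ => u ^ n * (Real.exp (-(x * u)) *
      altMsoft (e u) (Real.exp (δ * u)))) (Set.Ioc U A) := by
    refine Integrable.mono' hI2.norm (by fun_prop) ?_
    refine (ae_restrict_iff' measurableSet_Ioc).2 (Eventually.of_forall fun u hu => ?_)
    rw [Real.norm_eq_abs, Real.norm_eq_abs, abs_mul, abs_mul, abs_mul, abs_mul, Real.abs_exp]
    have h := altM_soft_abs (e u) (Real.exp (δ * u)) (Real.exp_pos _).le
    calc |u ^ n| * (Real.exp (-(x * u)) * |altMsoft (e u) (Real.exp (δ * u))|) ≤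
        |u ^ n| * (Real.exp (-(x * u)) * |e u|) := by gcongr
      _ = |u ^ n| * |e u| * Real.exp (-(x * u)) := by ring
  have hg := altM_gamma (n + 1) (by omega) (x - δ) (by linarith)
  rw [Nat.add_sub_cancel] at hg
  have hIg : IntegrableOn (fun u : ℝ => u ^ n * Real.exp (-((x - δ) * u))) (Set.Ioi 0) :=
    altM_int_pow n (x - δ) (by linarith)
  rw [← integral_sub hI2 hIs, ← hg, ← Real.norm_eq_abs]
  have hss : Set.Ioc U A ⊆ Set.Ioi (0 : ℝ) := fun u hu => lt_trans (by linarith) hu.1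
  have hstep : ∫ u in Set.Ioc U A, u ^ n * Real.exp (-((x - δ) * u)) ≤
      ∫ u in Set.Ioi (0 : ℝ), u ^ n * Real.exp (-((x - δ) * u)) := by
    refine setIntegral_mono_set hIg ?_ (LE.le.eventuallyLE hss)
    refine (ae_restrict_iff' measurableSet_Ioi).2 (Eventually.of_forall fun u hu => ?_)
    have hu1 : (0 : ℝ) < u := hu
    simp only [Pi.zero_apply]
    positivity
  refine le_trans (norm_integral_le_of_norm_le (hIg.mono_set hss) ?_) hstep
  refine (ae_restrict_iff' measurableSet_Ioc).2 (Eventually.of_forall fun u hu => ?_)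
  have hu1 : (0 : ℝ) < u := hss hu
  have h := altM_soft_diff (e u) (Real.exp (δ * u)) (Real.exp_pos _).le
  rw [Real.norm_eq_abs, show u ^ n * e u * Real.exp (-(x * u)) -
    u ^ n * (Real.exp (-(x * u)) * altMsoft (e u) (Real.exp (δ * u))) =
    u ^ n * Real.exp (-(x * u)) * (e u - altMsoft (e u) (Real.exp (δ * u))) by ring, abs_mul,
    abs_of_pos (by positivity)]
  calc u ^ n * Real.exp (-(x * u)) * |e u - altMsoft (e u) (Real.exp (δ * u))| ≤
      u ^ n * Real.exp (-(x * u)) * Real.exp (δ * u) := by gcongr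
    _ = u ^ n * (Real.exp (-(x * u)) * Real.exp (δ * u)) := by ring
    _ = u ^ n * Real.exp (-((x - δ) * u)) := by
        rw [← Real.exp_add]
        congr 2
        ring

end W3283c
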