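import Pool.Agent.W_3283e1_lw.AltS

set_option autoImplicit false

namespace W3283c

open Complex W3283l

theorem near_sub {s t : ℂ} (hs : 0 ≤ s.im) (ht : 0 ≤ t.im) (hst : s ≠ t) :
    {x : ℝ | ‖(x : ℂ) - s‖ = ‖(x : ℂ) - t‖}.Subsingleton := by
  have key : ∀ x : ℝ, ‖(x : ℂ) - s‖ = ‖(x : ℂ) - t‖ →
      2 * x * (s.re - t.re) = ‖s‖ ^ 2 - ‖t‖ ^ 2 := by
    intro x hx
    have h := congrArg (· ^ 2) hx
    simp only [Near_normSq] at h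
    linarith
  intro x hx y hy
  have h1 := key x hx
  have h2 := key y hy
  have h3 : (x - y) * (s.re - t.re) = 0 := by linarith
  rcases mul_eq_zero.1 h3 with h | h
  · linarith
  · exfalso
    have hre : s.re = t.re := by linarith
    have h4 : ‖s‖ ^ 2 = ‖t‖ ^ 2 := by rw [hre] at h1; linarith
    rw [← Complex.normSq_eq_norm_sq, ← Complex.normSq_eq_norm_sq, Complex.normSq_apply,
      Complex.normSq_apply, hre] at h4
    have h5 : s.im ^ 2 = t.im ^ 2 := by linarith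
    have h6 : s.im = t.im := (sq_eq_sq₀ hs ht).1 h5
    exact hst (Complex.ext hre h6)

/-- A real point `x > x0` whose nearest zero `ρ` with `Im ρ ≥ 0` is unique; the distance is smaller than `x - δ`. -/
theorem near_gen (f : ℂ → ℂ) (hf : ∀ s : ℂ, 0 < s.re → AnalyticAt ℂ f s)
    (hne : ∃ s : ℂ, 0 < s.re ∧ f s ≠ 0)
    (hsym : ∀ s : ℂ, 0 < s.re → f s = 0 → f (starRingEnd ℂ s) = 0)
    (s0 : ℂ) (hs0 : 0 < s0.re) (hf0 : f s0 = 0) (δ : ℝ) (hδ0 : 0 ≤ δ) (hδ : δ < s0.re) (x0 : ℝ) :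
    ∃ (x R' : ℝ) (ρ : ℂ), x0 < x ∧ 0 < x ∧ 0 ≤ ρ.im ∧ f ρ = 0 ∧ ‖(x : ℂ) - ρ‖ < R' ∧
      R' < x - δ ∧ ∀ s : ℂ, ‖(x : ℂ) - s‖ < R' → f s = 0 → s = ρ ∨ s = starRingEnd ℂ ρ := by
  have hc := zeros_countable f hf hne
  obtain ⟨ρ', hρ', hfρ', hiρ', hδρ'⟩ : ∃ ρ' : ℂ, 0 < ρ'.re ∧ f ρ' = 0 ∧ 0 ≤ ρ'.im ∧ δ < ρ'.re := by
    rcases le_total 0 s0.im with h | h
    · exact ⟨s0, hs0, hf0, h, hδ⟩
    · exact ⟨starRingEnd ℂ s0, by simpa using hs0, hsym s0 hs0 hf0, by simpa using h,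
        by simpa using hδ⟩
  -- the exceptional set
  have hB : (⋃ s ∈ {s : ℂ | 0 < s.re ∧ f s = 0}, ⋃ t ∈ {s : ℂ | 0 < s.re ∧ f s = 0},
      {x : ℝ | (0 ≤ s.im ∧ 0 ≤ t.im ∧ s ≠ t) ∧ ‖(x : ℂ) - s‖ = ‖(x : ℂ) - t‖}).Countable := by
    refine hc.biUnion fun s _ => hc.biUnion fun t _ => ?_
    by_cases h : 0 ≤ s.im ∧ 0 ≤ t.im ∧ s ≠ t
    · refine (near_sub h.1 h.2.1 h.2.2).countable.mono ?_
      rintro x ⟨-, hx⟩
      exact hx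
    · refine Set.countable_empty.mono ?_
      rintro x ⟨hx, -⟩
      exact h hx
  obtain ⟨x, hx1, hx2⟩ := (hB.dense_compl ℝ).inter_open_nonempty
    (Set.Ioi (max x0 (max δ (‖ρ'‖ ^ 2 / (2 * (ρ'.re - δ)))))) isOpen_Ioi Set.nonempty_Ioi
  have hx1' : max x0 (max δ (‖ρ'‖ ^ 2 / (2 * (ρ'.re - δ)))) < x := hx1
  have hxx0 : x0 < x := (le_max_left _ _).trans_lt hx1'
  have hxδ : δ < x := ((le_max_left _ _).trans (le_max_right _ _)).trans_lt hx1'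
  have hxr : ‖ρ'‖ ^ 2 / (2 * (ρ'.re - δ)) < x :=
    ((le_max_right _ _).trans (le_max_right _ _)).trans_lt hx1'
  have hxpos : 0 < x := lt_of_le_of_lt hδ0 hxδ
  have hdist : ∀ s t : ℂ, 0 < s.re → f s = 0 → 0 < t.re → f t = 0 → 0 ≤ s.im → 0 ≤ t.im → s ≠ t →
      ‖(x : ℂ) - s‖ ≠ ‖(x : ℂ) - t‖ := by
    intro s t hs hfs ht hft his hit hst he
    apply hx2
    simp only [Set.mem_iUnion]
    exact ⟨s, ⟨hs, hfs⟩, t, ⟨ht, hft⟩, ⟨his, hit, hst⟩, he⟩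
  have hlt : ‖(x : ℂ) - ρ'‖ < x - δ := by
    rw [div_lt_iff₀ (by linarith)] at hxr
    have h1 := Near_normSq x ρ'
    have h2 : ‖(x : ℂ) - ρ'‖ ^ 2 < (x - δ) ^ 2 := by rw [h1]; nlinarith [sq_nonneg δ]
    exact lt_of_pow_lt_pow_left₀ 2 (by linarith) h2
  obtain ⟨r1, hr1, hr1x⟩ := exists_between hlt
  have hre : ∀ s : ℂ, ‖(x : ℂ) - s‖ ≤ r1 → 0 < s.re := by
    intro s hs
    have h1 : |((x : ℂ) - s).re| ≤ ‖(x : ℂ) - s‖ := Complex.abs_re_le_norm _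
    have h2 : ((x : ℂ) - s).re = x - s.re := by simp
    rw [h2] at h1
    have h3 := (abs_le.1 h1).2
    linarith
  have hFfin : {s : ℂ | s ∈ Metric.closedBall (x : ℂ) r1 ∧ f s = 0}.Finite := by
    refine Near_fin f hf hne (isCompact_closedBall _ _) ?_
    intro s hs
    rw [mem_closedBall_iff_norm'] at hs
    exact hre s hs
  have hF1 : {s : ℂ | ‖(x : ℂ) - s‖ ≤ r1 ∧ f s = 0 ∧ 0 ≤ s.im}.Finite := by
    refine hFfin.subset ?_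
    rintro s ⟨h1, h2, -⟩
    exact ⟨mem_closedBall_iff_norm'.2 h1, h2⟩
  obtain ⟨ρ, ⟨hρr, hρ0, hρi⟩, hρmin⟩ := Set.exists_min_image _ (fun s => ‖(x : ℂ) - s‖) hF1
    ⟨ρ', hr1.le, hfρ', hiρ'⟩
  have hρre := hre ρ hρr
  have hρlt : ‖(x : ℂ) - ρ‖ < r1 := (hρmin ρ' ⟨hr1.le, hfρ', hiρ'⟩).trans_lt hr1
  have hG : {s : ℂ | (‖(x : ℂ) - s‖ ≤ r1 ∧ f s = 0 ∧ 0 ≤ s.im) ∧ s ≠ ρ}.Finite :=
    hF1.subset fun s hs => hs.1
  have hev : ∀ᶠ R' in nhdsWithin ‖(x : ℂ) - ρ‖ (Set.Ioi ‖(x : ℂ) - ρ‖),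
      ∀ s ∈ {s : ℂ | (‖(x : ℂ) - s‖ ≤ r1 ∧ f s = 0 ∧ 0 ≤ s.im) ∧ s ≠ ρ}, R' < ‖(x : ℂ) - s‖ := by
    rw [Filter.eventually_all_finite hG]
    rintro s ⟨⟨h1, h2, h3⟩, h4⟩
    have h5 : ‖(x : ℂ) - ρ‖ < ‖(x : ℂ) - s‖ := by
      refine lt_of_le_of_ne (hρmin s ⟨h1, h2, h3⟩) ?_
      exact hdist ρ s hρre hρ0 (hre s h1) h2 hρi h3 (Ne.symm h4)
    exact (eventually_lt_nhds h5).filter_mono nhdsWithin_le_nhds
  have hev2 : ∀ᶠ R' in nhdsWithin ‖(x : ℂ) - ρ‖ (Set.Ioi ‖(x : ℂ) - ρ‖), R' < r1 :=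
    (eventually_lt_nhds hρlt).filter_mono nhdsWithin_le_nhds
  have hev3 : ∀ᶠ R' in nhdsWithin ‖(x : ℂ) - ρ‖ (Set.Ioi ‖(x : ℂ) - ρ‖), ‖(x : ℂ) - ρ‖ < R' :=
    self_mem_nhdsWithin
  obtain ⟨R', h1, h2, h3⟩ := (hev.and (hev2.and hev3)).exists
  refine ⟨x, R', ρ, hxx0, hxpos, hρi, hρ0, h3, h2.trans hr1x, ?_⟩
  intro s hs hs0
  have hsr : ‖(x : ℂ) - s‖ ≤ r1 := hs.le.trans h2.le
  have hsre := hre s hsr
  rcases le_total s.im 0 with h | h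
  · right
    by_contra hne'
    have h5 : starRingEnd ℂ s ≠ ρ := by
      intro he
      apply hne'
      rw [← he, Complex.conj_conj]
    have h6 := h1 (starRingEnd ℂ s) ⟨⟨by rw [Near_conj]; exact hsr, hsym s hsre hs0,
      by simpa using h⟩, h5⟩
    rw [Near_conj] at h6
    linarith
  · left
    by_contra hne'
    have h6 := h1 s ⟨⟨hsr, hs0, h⟩, hne'⟩
    linarith

/-- The square of `f` without its zeros `ρ`, `conj ρ` (equal if `ρ` is real). -/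
theorem pair_sq (x R : ℝ) (f : ℂ → ℂ) (hf : AnalyticOnNhd ℂ f (Metric.ball (x : ℂ) R))
    (hsym : ∀ s ∈ Metric.ball (x : ℂ) R, f (starRingEnd ℂ s) = starRingEnd ℂ (f s)) (ρ : ℂ)
    (hρ : ρ ∈ Metric.ball (x : ℂ) R) (him : 0 ≤ ρ.im)
    (hne : ∃ s ∈ Metric.ball (x : ℂ) R, f s ≠ 0) (h0 : f ρ = 0)
    (hz : ∀ s ∈ Metric.ball (x : ℂ) R, f s = 0 → s = ρ ∨ s = starRingEnd ℂ ρ) :
    ∃ (m : ℕ) (H : ℂ → ℂ), 1 ≤ m ∧ AnalyticOnNhd ℂ H (Metric.ball (x : ℂ) R) ∧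
      (∀ s ∈ Metric.ball (x : ℂ) R, H s ≠ 0) ∧
      ∀ s ∈ Metric.ball (x : ℂ) R, f s ^ 2 = (s - ρ) ^ m * (s - starRingEnd ℂ ρ) ^ m * H s := by
  have hR : 0 < R := by
    have := Metric.mem_ball.1 hρ
    exact lt_of_le_of_lt dist_nonneg this
  have hpre : IsPreconnected (Metric.ball (x : ℂ) R) := (convex_ball _ _).isPreconnected
  rcases him.eq_or_lt with hi | hi
  · -- a real zero
    have hcρ : starRingEnd ℂ ρ = ρ := Complex.conj_eq_iff_im.2 hi.symm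
    have hnev : ¬ ∀ᶠ z in nhds ρ, f z = 0 := by
      intro h
      obtain ⟨s, hs, hs0⟩ := hne
      exact hs0 (hf.eqOn_zero_of_preconnected_of_eventuallyEq_zero hpre hρ h hs)
    obtain ⟨m, H, hH, hH0, hHf⟩ := AltS_fac _ f hf ρ hρ hnev
    refine ⟨m, fun s => H s ^ 2, ?_, fun s hs => (hH s hs).pow 2, fun s hs => ?_, fun s hs => ?_⟩
    · rcases Nat.eq_zero_or_pos m with h | h
      · exfalso
        have h2 := hHf ρ
        rw [h, h0, pow_zero, one_mul] at h2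
        exact hH0 h2.symm
      · exact h
    · refine pow_ne_zero 2 fun h => ?_
      have h1 := hHf s
      rw [h, mul_zero] at h1
      have h2 : s = ρ := by
        rcases hz s hs h1 with h2 | h2
        · exact h2
        · rw [h2, hcρ]
      rw [h2] at h
      exact hH0 h
    · rw [hcρ, hHf s]
      ring
  · -- a pair
    have hxne : f x ≠ 0 := by
      intro h
      have hxm : (x : ℂ) ∈ Metric.ball (x : ℂ) R := Metric.mem_ball_self hR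
      rcases hz x hxm h with h1 | h1
      · rw [← h1] at hi
        simp at hi
      · have h2 := congrArg Complex.im h1
        rw [Complex.conj_im, Complex.ofReal_im] at h2
        linarith
    obtain ⟨m, H, hm, hH, hH0, hHf⟩ := AltS_pair x R f hf hsym ρ hρ hi hxne h0 hz
    refine ⟨2 * m, fun s => H s ^ 2, by omega, fun s hs => (hH s hs).pow 2,
      fun s hs => pow_ne_zero 2 (hH0 s hs), fun s hs => ?_⟩
    rw [hHf s hs]
    ring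

end W3283c
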