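import Mathlib

set_option autoImplicit false

namespace W3283c

open Filter Topology

theorem next_pt (S : Set ℝ) (y : ℝ) (hy : 0 < y) (hS : ∃ z ∈ S, 2 * y ≤ z) :
    ∃ z ∈ S, 2 * y ≤ z ∧ ∀ w ∈ S, 2 * y ≤ w → z ≤ 2 * w := by
  obtain ⟨z0, hz0, hz0'⟩ := hS
  have hb : BddBelow {z | z ∈ S ∧ 2 * y ≤ z} := ⟨2 * y, fun w hw => hw.2⟩
  have hne : {z | z ∈ S ∧ 2 * y ≤ z}.Nonempty := ⟨z0, hz0, hz0'⟩
  have hm : 2 * y ≤ sInf {z | z ∈ S ∧ 2 * y ≤ z} := le_csInf hne fun w hw => hw.2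
  obtain ⟨z, hz, hz'⟩ := exists_lt_of_csInf_lt hne
    (show sInf {z | z ∈ S ∧ 2 * y ≤ z} < 2 * sInf {z | z ∈ S ∧ 2 * y ≤ z} by linarith)
  refine ⟨z, hz.1, hz.2, fun w hw hw' => ?_⟩
  have := csInf_le hb ⟨hw, hw'⟩
  linarith

/-- A sequence with `log t_{j+1} / log t_j → 1` from points in all the windows `[X, X^{1+η}]`. -/
theorem seq_of_windows (S : Set ℝ)
    (hS : ∀ η : ℝ, 0 < η → η ≤ 1 → ∃ X0 : ℝ, ∀ X : ℝ, X0 ≤ X → ∃ y ∈ S, X ≤ y ∧ y ≤ X ^ (1 + η)) :
    ∃ t : ℕ → ℝ, StrictMono t ∧ Tendsto t atTop atTop ∧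
      Tendsto (fun j => Real.log (t (j + 1)) / Real.log (t j)) atTop (𝓝 1) ∧
      ∀ j, 1 < t j ∧ t j ∈ S := by
  classical
  have hun : ∀ y : ℝ, ∃ z ∈ S, y ≤ z := by
    intro y
    obtain ⟨X0, h⟩ := hS 1 one_pos le_rfl
    obtain ⟨z, hz, h1, -⟩ := h (max X0 y) (le_max_left _ _)
    exact ⟨z, hz, (le_max_right _ _).trans h1⟩
  have hnx : ∀ y : ℝ, ∃ z : ℝ, 0 < y → z ∈ S ∧ 2 * y ≤ z ∧ ∀ w ∈ S, 2 * y ≤ w → z ≤ 2 * w := by
    intro y
    by_cases hy : 0 < y
    · obtain ⟨z, h1, h2, h3⟩ := next_pt S y hy (hun _)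
      exact ⟨z, fun _ => ⟨h1, h2, h3⟩⟩
    · exact ⟨0, fun h => absurd h hy⟩
  choose nx hnx using hnx
  obtain ⟨t0, ht0S, ht0⟩ := hun 2
  set t : ℕ → ℝ := fun j => Nat.rec t0 (fun _ y => nx y) j with ht
  have ht1 : ∀ j, t (j + 1) = nx (t j) := fun j => rfl
  have hpos : ∀ j, 1 < t j ∧ t j ∈ S := by
    intro j
    induction j with
    | zero => exact ⟨by show 1 < t0; linarith, ht0S⟩
    | succ j ih =>
      rw [ht1]
      obtain ⟨h1, h2, -⟩ := hnx (t j) (by linarith [ih.1])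
      exact ⟨by linarith [ih.1], h1⟩
  have hdbl : ∀ j, 2 * t j ≤ t (j + 1) := by
    intro j
    rw [ht1]
    exact (hnx (t j) (by linarith [(hpos j).1])).2.1
  have hmono : StrictMono t := strictMono_nat_of_lt_succ fun j => by
    have := (hpos j).1
    have := hdbl j
    linarith
  have hlow : ∀ j : ℕ, (j : ℝ) ≤ t j := by
    intro j
    induction j with
    | zero => push_cast; linarith [(hpos 0).1]
    | succ j ih =>
      push_cast
      have := (hpos j).1
      have := hdbl j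
      linarith
  have htend : Tendsto t atTop atTop :=
    tendsto_atTop_mono hlow tendsto_natCast_atTop_atTop
  refine ⟨t, hmono, htend, ?_, hpos⟩
  rw [Metric.tendsto_atTop]
  intro ε hε
  set η : ℝ := min 1 (ε / 4) with hη
  have hη0 : 0 < η := lt_min one_pos (by positivity)
  obtain ⟨X0, hX0⟩ := hS η hη0 (min_le_left _ _)
  have hl2 : 0 < Real.log 2 := Real.log_pos (by norm_num)
  obtain ⟨J, hJ⟩ := (htend.eventually (eventually_ge_atTop
    (max X0 (Real.exp (12 * Real.log 2 / ε + 1))))).exists_forall_of_atTop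
  refine ⟨J, fun j hj => ?_⟩
  have h1 := hJ j hj
  have h2 : X0 ≤ t j := (le_max_left _ _).trans h1
  have h3 : Real.exp (12 * Real.log 2 / ε + 1) ≤ t j := (le_max_right _ _).trans h1
  have h4 := (hpos j).1
  have h5 : 12 * Real.log 2 / ε + 1 ≤ Real.log (t j) := by
    rw [Real.le_log_iff_exp_le (by linarith)]
    exact h3
  have h6 : 0 < 12 * Real.log 2 / ε := by positivity
  have h7 : 0 < Real.log (t j) := by linarith
  obtain ⟨w, hw, hw1, hw2⟩ := hX0 (2 * t j) (by linarith)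
  have h8 : t (j + 1) ≤ 2 * w := by
    rw [ht1]
    exact (hnx (t j) (by linarith)).2.2 w hw hw1
  have h9 : Real.log (t (j + 1)) ≤ Real.log 2 + (1 + η) * (Real.log 2 + Real.log (t j)) := by
    have g1 : Real.log (t (j + 1)) ≤ Real.log (2 * (2 * t j) ^ (1 + η)) :=
      Real.log_le_log (by linarith [(hpos (j + 1)).1]) (by linarith)
    rw [Real.log_mul (by norm_num) (by positivity), Real.log_rpow (by linarith),
      Real.log_mul (by norm_num) (by linarith)] at g1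
    exact g1
  have h10 : Real.log (t j) ≤ Real.log (t (j + 1)) :=
    Real.log_le_log (by linarith) (hmono.monotone (Nat.le_succ j))
  rw [Real.dist_eq, abs_of_nonneg (by
    rw [sub_nonneg, le_div_iff₀ h7]
    linarith), sub_lt_iff_lt_add, div_lt_iff₀ h7]
  have h11 : η ≤ ε / 4 := min_le_right _ _
  have h12 : η ≤ 1 := min_le_left _ _
  have h13 : 12 * Real.log 2 < ε * Real.log (t j) := by
    have g1 : 12 * Real.log 2 / ε < Real.log (t j) := by linarith
    rw [div_lt_iff₀ hε] at g1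
    linarith
  have h14 : η * Real.log (t j) ≤ ε / 4 * Real.log (t j) := mul_le_mul_of_nonneg_right h11 h7.le
  have h15 : η * Real.log 2 ≤ Real.log 2 := mul_le_of_le_one_left hl2.le h12
  have h16 : Real.log 2 + (1 + η) * (Real.log 2 + Real.log (t j)) =
      2 * Real.log 2 + η * Real.log 2 + Real.log (t j) + η * Real.log (t j) := by ring
  rw [h16] at h9
  have h17 : (ε + 1) * Real.log (t j) = ε * Real.log (t j) + Real.log (t j) := by ring
  rw [h17]
  linarith

end W3283c
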