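import Pool.Agent.W_3283e1_h97.LocN

set_option autoImplicit false

namespace W3283c

open Complex W3283e1 W3283f W3283l MeasureTheory Filter Topology

/-- The nearest singularities of the transform of `er` at a real point `x > x1`: one zero `ρ = x - y0` with
`Im ρ ≥ 0` and its conjugate; the distance is smaller than `x - δ` if there is a zero with real part
larger than `δ`. -/
theorem er_sing_gen (α : ℕ → ℂ) (L W : ℂ → ℂ) (hD : DataR α L W) (κ : ℝ) (r : ℕ)
    (s0 : ℂ) (hs0 : 0 < s0.re) (hz : L (1 + s0) = 0) (δ : ℝ) (hδ0 : 0 ≤ δ) (hδ : δ < s0.re)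
    (x1 : ℝ) :
    ∃ (x R' d : ℝ) (mm : ℕ) (y0 : ℂ) (Φ : ℂ → ℂ), 2 < x ∧ x1 < x ∧ 1 ≤ mm ∧ y0.im ≤ 0 ∧
      L (1 + ((x : ℂ) - y0)) = 0 ∧ 0 < y0.re ∧
      ‖y0‖ < R' ∧ R' < x - δ ∧ 0 < d ∧ (∀ y : ℂ, ‖y‖ < R' → DifferentiableAt ℂ Φ y) ∧
      ∀ y : ℂ, ‖y‖ < d →
        2 * ∫ u in Set.Ioi (0 : ℝ), (W3283g.er α κ r u : ℂ) * Complex.exp (-(((x : ℂ) - y) * u)) =
          Φ y - mm * (Complex.log (1 - y / y0) + Complex.log (1 - y / (starRingEnd ℂ y0))) /
            ((x : ℂ) - y) := by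
  have hfa : ∀ s : ℂ, 0 < s.re → AnalyticAt ℂ (fun s : ℂ => L (1 + s)) s :=
    fun s hs => W3283g.NearR_L L hD.L_diff s hs
  obtain ⟨Q, hQ, _, _, hid⟩ := W3283g.Q_full α L W hD
  have hLne : ∀ s : ℂ, 1 / 2 < s.re → L (1 + s) ≠ 0 := by
    intro s hs h2
    have h1 := hid s hs
    rw [h2] at h1
    refine (hQ s (by linarith)).2 ?_
    rw [← h1]
    ring
  obtain ⟨x, R', ρ, hx, hx0, hρim, hρ0, hρR, hRx, hzero⟩ := near_gen (fun s => L (1 + s)) hfa
    ⟨1, by rw [Complex.one_re]; norm_num, hLne 1 (by rw [Complex.one_re]; norm_num)⟩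
    (fun s hs h0 => by
      show L (1 + starRingEnd ℂ s) = 0
      rw [AltS_refl L hD.L_diff hD.L_real s hs]
      show starRingEnd ℂ (L (1 + s)) = 0
      rw [show L (1 + s) = 0 from h0, map_zero]) s0 hs0 hz δ hδ0 hδ (max 2 x1)
  have hx2 : 2 < x := (le_max_left _ _).trans_lt hx
  have hxx1 : x1 < x := (le_max_right _ _).trans_lt hx
  have hρhalf : ρ.re ≤ 1 / 2 := by
    by_contra hcon
    push Not at hcon
    exact hLne ρ hcon hρ0
  have hball : ∀ s ∈ Metric.ball (x : ℂ) R', 0 < s.re := by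
    intro s hs
    rw [Metric.mem_ball, dist_eq_norm] at hs
    have h1 : |(s - (x : ℂ)).re| ≤ ‖s - (x : ℂ)‖ := Complex.abs_re_le_norm _
    rw [Complex.sub_re, Complex.ofReal_re] at h1
    have h2 := (abs_le.1 (h1.trans hs.le)).1
    linarith
  have hsw : ∀ s : ℂ, s ∈ Metric.ball (x : ℂ) R' ↔ ‖(x : ℂ) - s‖ < R' := by
    intro s
    rw [Metric.mem_ball, dist_eq_norm, norm_sub_rev]
  have hR' : 0 < R' := lt_of_le_of_lt (norm_nonneg _) hρR
  obtain ⟨m, H, hm, hH, hH0, hHf⟩ := pair_sq x R' (fun s => L (1 + s))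
    (fun s hs => hfa s (hball s hs))
    (fun s hs => AltS_refl L hD.L_diff hD.L_real s (hball s hs)) ρ ((hsw ρ).2 hρR) hρim
    ⟨(x : ℂ), Metric.mem_ball_self hR', hLne x (by rw [Complex.ofReal_re]; linarith)⟩ hρ0
    (fun s hs h0 => hzero s ((hsw s).1 hs) h0)
  set y0 : ℂ := (x : ℂ) - ρ with hy0
  have hyim : y0.im ≤ 0 := by
    rw [hy0, Complex.sub_im, Complex.ofReal_im]
    linarith
  have hyre : 0 < y0.re := by
    rw [hy0, Complex.sub_re, Complex.ofReal_re]
    linarith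
  have hy0n : y0 ≠ 0 := by
    intro h
    rw [h] at hyre
    simp at hyre
  have hny : 0 < ‖y0‖ := norm_pos_iff.2 hy0n
  have hyc : starRingEnd ℂ y0 = (x : ℂ) - starRingEnd ℂ ρ := by
    rw [hy0, map_sub, Complex.conj_ofReal]
  have hycn : starRingEnd ℂ y0 ≠ 0 := (map_ne_zero _).2 hy0n
  have hnyc : ‖starRingEnd ℂ y0‖ = ‖y0‖ := RCLike.norm_conj _
  set d : ℝ := min ‖y0‖ 1 with hd
  have hd0 : 0 < d := lt_min hny one_pos
  have hdR : d ≤ R' := (min_le_left _ _).trans hρR.le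
  have hVre : ∀ s ∈ Metric.ball (x : ℂ) d, 1 / 2 < s.re := by
    intro s hs
    rw [Metric.mem_ball, dist_eq_norm] at hs
    have h1 : |(s - (x : ℂ)).re| ≤ ‖s - (x : ℂ)‖ := Complex.abs_re_le_norm _
    rw [Complex.sub_re, Complex.ofReal_re] at h1
    have h2 := (abs_le.1 (h1.trans hs.le)).1
    have h3 : d ≤ 1 := min_le_right _ _
    linarith
  have hslit : ∀ w : ℂ, w ≠ 0 → ‖w‖ = ‖y0‖ → ∀ s ∈ Metric.ball (x : ℂ) d,
      1 - ((x : ℂ) - s) / w ∈ Complex.slitPlane := by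
    intro w hw hwn s hs
    have h1 : ‖-(((x : ℂ) - s) / w)‖ < 1 := by
      rw [norm_neg, _root_.norm_div, hwn, div_lt_one hny, norm_sub_rev, ← dist_eq_norm]
      exact lt_of_lt_of_le (Metric.mem_ball.1 hs) (min_le_left _ _)
    have h2 := Complex.mem_slitPlane_of_norm_lt_one h1
    rwa [← sub_eq_add_neg] at h2
  have hlogc : ∀ w : ℂ, w ≠ 0 → ‖w‖ = ‖y0‖ → ContinuousOn
      (fun s : ℂ => Complex.log (1 - ((x : ℂ) - s) / w)) (Metric.ball (x : ℂ) d) := by
    intro w hw hwn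
    refine ContinuousOn.clog ?_ (hslit w hw hwn)
    exact (continuous_const.sub ((continuous_const.sub continuous_id).div_const _)).continuousOn
  set K : ℂ → ℂ := fun s => Q s / ((y0 * starRingEnd ℂ y0) ^ m * H s) with hK
  set G1 : ℂ → ℂ := fun s => GG α s + m / 2 * (Complex.log (1 - ((x : ℂ) - s) / y0) +
    Complex.log (1 - ((x : ℂ) - s) / (starRingEnd ℂ y0))) with hG1
  have hden : ∀ s ∈ Metric.ball (x : ℂ) R', (y0 * starRingEnd ℂ y0) ^ m * H s ≠ 0 :=
    fun s hs => mul_ne_zero (pow_ne_zero _ (mul_ne_zero hy0n hycn)) (hH0 s hs)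
  have hKa : AnalyticOnNhd ℂ K (Metric.ball (x : ℂ) R') := fun s hs =>
    (hQ s (hball s hs).le).1.div (analyticAt_const.mul (hH s hs)) (hden s hs)
  have hK0 : ∀ s ∈ Metric.ball (x : ℂ) R', K s ≠ 0 := fun s hs =>
    div_ne_zero (hQ s (hball s hs).le).2 (hden s hs)
  have hG1c : ContinuousOn G1 (Metric.ball (x : ℂ) d) := by
    refine ContinuousOn.add (fun s hs => ?_) (continuousOn_const.mul
      ((hlogc y0 hy0n rfl).add (hlogc _ hycn hnyc)))
    exact (W3283g.NearR_GG α hD.norm_α s (hVre s hs)).continuousAt.continuousWithinAt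
  have hG1K : ∀ s ∈ Metric.ball (x : ℂ) d, Complex.exp (2 * G1 s) = K s := by
    intro s hs
    have hsU : s ∈ Metric.ball (x : ℂ) R' := Metric.ball_subset_ball hdR hs
    have h1 := hid s (hVre s hs)
    have h2 := hHf s hsU
    have e1 : Complex.exp (Complex.log (1 - ((x : ℂ) - s) / y0)) = (s - ρ) / y0 := by
      rw [Complex.exp_log (Complex.slitPlane_ne_zero (hslit y0 hy0n rfl s hs)), eq_div_iff hy0n,
        sub_mul, div_mul_cancel₀ _ hy0n, hy0]
      ring
    have e2 : Complex.exp (Complex.log (1 - ((x : ℂ) - s) / (starRingEnd ℂ y0))) =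
        (s - starRingEnd ℂ ρ) / starRingEnd ℂ y0 := by
      rw [Complex.exp_log (Complex.slitPlane_ne_zero (hslit _ hycn hnyc s hs)), eq_div_iff hycn,
        sub_mul, div_mul_cancel₀ _ hycn, hyc]
      ring
    have e3 : Complex.exp (2 * G1 s) = Complex.exp (2 * GG α s) *
        (Complex.exp (Complex.log (1 - ((x : ℂ) - s) / y0)) *
          Complex.exp (Complex.log (1 - ((x : ℂ) - s) / (starRingEnd ℂ y0)))) ^ m := by
      rw [← Complex.exp_add, ← Complex.exp_nat_mul, ← Complex.exp_add, hG1]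
      congr 1
      ring
    rw [e3, e1, e2, hK]
    simp only []
    rw [eq_div_iff (hden s hsU), ← h1]
    have h2' : L (1 + s) ^ 2 = (s - ρ) ^ m * (s - starRingEnd ℂ ρ) ^ m * H s := h2
    rw [h2', mul_pow y0, mul_pow ((s - ρ) / y0), div_pow, div_pow]
    have p1 : y0 ^ m ≠ 0 := pow_ne_zero _ hy0n
    have p2 : (starRingEnd ℂ y0) ^ m ≠ 0 := pow_ne_zero _ hycn
    field_simp
  obtain ⟨g, hga, _, hgG⟩ := W3283g.log_ext (Metric.ball (x : ℂ) R') (Metric.ball (x : ℂ) d)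
    Metric.isOpen_ball (convex_ball _ _) (convex_ball _ _).isPreconnected
    ⟨_, Metric.mem_ball_self hd0⟩ (Metric.ball_subset_ball hdR) K G1 hKa hK0 hG1c hG1K
  have hyball : ∀ (y : ℂ) (t : ℝ), ‖y‖ < t → (x : ℂ) - y ∈ Metric.ball (x : ℂ) t := by
    intro y t hy
    rw [Metric.mem_ball, dist_eq_norm, sub_sub_cancel_left, norm_neg]
    exact hy
  refine ⟨x, R', d, m, y0, fun y => 2 * ((g ((x : ℂ) - y) + r * ((Real.eulerMascheroniConstant : ℂ) +
    Complex.log ((x : ℂ) - y)) - κ) / ((x : ℂ) - y)), hx2, hxx1, hm, hyim, ?_, hyre, hρR, hRx, hd0,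
    ?_, ?_⟩
  · rw [hy0, sub_sub_cancel]
    exact hρ0
  · intro y hy
    have h1 := hyball y R' hy
    have h2 := hball _ h1
    have h3 : DifferentiableAt ℂ (fun y : ℂ => (x : ℂ) - y) y :=
      (differentiableAt_const _).sub differentiableAt_id
    have h4 : DifferentiableAt ℂ (fun y : ℂ => g ((x : ℂ) - y)) y :=
      DifferentiableAt.comp (g := g) (f := fun y : ℂ => (x : ℂ) - y) y
        (hga _ h1).differentiableAt h3
    have h5 : DifferentiableAt ℂ (fun y : ℂ => Complex.log ((x : ℂ) - y)) y :=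
      h3.clog (Or.inl h2)
    refine DifferentiableAt.const_mul (DifferentiableAt.div ?_ h3 ?_) _
    · exact (h4.add ((h5.const_add _).const_mul _)).sub_const _
    · intro h0
      rw [h0] at h2
      simp at h2
  · intro y hy
    have h1 := hyball y d hy
    have h2 := hVre _ h1
    have h3 := W3283g.er_transform α hD.norm_α κ r ((x : ℂ) - y) h2
    have h4 := hgG _ h1
    have hne : (x : ℂ) - y ≠ 0 := by
      intro h0
      rw [h0] at h2
      simp at h2
      linarith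
    rw [hG1] at h4
    simp only [sub_sub_cancel] at h4
    beta_reduce
    rw [h4]
    have h5 : (∫ u in Set.Ioi (0 : ℝ), (W3283g.er α κ r u : ℂ) *
        Complex.exp (-(((x : ℂ) - y) * u))) = (GG α ((x : ℂ) - y) + r *
          ((Real.eulerMascheroniConstant : ℂ) + Complex.log ((x : ℂ) - y)) - κ) /
            ((x : ℂ) - y) := by
      rw [eq_div_iff hne, mul_comm]
      exact h3
    rw [h5]
    ring

end W3283c
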