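import Mathlib

set_option autoImplicit false

/-! The exponent of growth as a limes superior. -/

namespace W3283g97

/-- An upper bound for large arguments and a rough bound everywhere give a bound everywhere. -/
theorem ls_glue (M : ℝ → ℝ) (b K1 a U0 : ℝ) (hb : 0 ≤ b)
    (h1 : ∀ U : ℝ, 1 ≤ U → |M U| ≤ K1 * Real.exp (b * U))
    (h0 : ∀ U : ℝ, U0 ≤ U → |M U| ≤ Real.exp (a * U)) :
    ∃ K : ℝ, ∀ U : ℝ, 1 ≤ U → |M U| ≤ K * Real.exp (a * U) := by
  refine ⟨1 + |K1| * Real.exp ((b + |a|) * |U0|), fun U hU => ?_⟩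
  have hp : 0 ≤ |K1| * Real.exp ((b + |a|) * |U0|) := by positivity
  rcases le_total U0 U with h | h
  · have h2 := h0 U h
    have h3 : 0 ≤ |K1| * Real.exp ((b + |a|) * |U0|) * Real.exp (a * U) := by positivity
    linarith
  · have h2 := h1 U hU
    have h3 : K1 * Real.exp (b * U) ≤ |K1| * Real.exp (b * U) :=
      mul_le_mul_of_nonneg_right (le_abs_self _) (Real.exp_pos _).le
    have hU0 : U ≤ |U0| := h.trans (le_abs_self _)
    have h4 : Real.exp (b * U) ≤ Real.exp ((b + |a|) * |U0|) * Real.exp (a * U) := by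
      rw [← Real.exp_add]
      refine Real.exp_le_exp.2 ?_
      have h5 : b * U ≤ b * |U0| := mul_le_mul_of_nonneg_left hU0 hb
      have h6 : -(a * U) ≤ |a| * |U0| := by
        have h7 : -a * U ≤ |a| * U :=
          mul_le_mul_of_nonneg_right (neg_le_abs a) (by linarith)
        have h8 : |a| * U ≤ |a| * |U0| := mul_le_mul_of_nonneg_left hU0 (abs_nonneg a)
        linarith
      linarith
    have h9 : |K1| * Real.exp (b * U) ≤ |K1| * (Real.exp ((b + |a|) * |U0|) * Real.exp (a * U)) :=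
      mul_le_mul_of_nonneg_left h4 (abs_nonneg _)
    have h10 : 0 < Real.exp (a * U) := Real.exp_pos _
    nlinarith

/-- The law as a limes superior. -/
theorem limsup_law (M : ℝ → ℝ) (Z : Set ℝ) (y : ℝ) (hy : 0 ≤ y) (hyZ : y ∈ Z)
    (h1 : (∃ κ K : ℝ, 0 < κ ∧ ∀ U : ℝ, 1 ≤ U → |M U| ≤ K * Real.exp (-(κ * U))) →
      ∀ z ∈ Z, z < 0)
    (h2 : ∀ x : ℝ, 0 ≤ x → ((∀ ε : ℝ, 0 < ε → ∃ K : ℝ, ∀ U : ℝ, 1 ≤ U →
      |M U| ≤ K * Real.exp ((x + ε) * U)) ↔ ∀ z ∈ Z, z ≤ x))
    (hmax : ∀ z ∈ Z, z ≤ y) :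
    Filter.limsup (fun U : ℝ => Real.log |M U| / U) Filter.atTop = y := by
  have hup : ∀ a : ℝ, y < a → ∀ᶠ U : ℝ in Filter.atTop, Real.log |M U| / U ≤ a := by
    intro a ha
    obtain ⟨K, hK⟩ := (h2 y hy).2 hmax ((a - y) / 2) (by linarith)
    have hK1 : 0 < max K 1 := lt_of_lt_of_le one_pos (le_max_right _ _)
    filter_upwards [Filter.eventually_ge_atTop (max 1 (Real.log (max K 1) / ((a - y) / 2)))]
      with U hU
    have hU1 : 1 ≤ U := (le_max_left _ _).trans hU
    have hU0 : 0 < U := by linarith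
    have hU2 : Real.log (max K 1) ≤ (a - y) / 2 * U := by
      have := (le_max_right _ _).trans hU
      rw [div_le_iff₀ (by linarith)] at this
      linarith
    rw [div_le_iff₀ hU0]
    rcases eq_or_ne (M U) 0 with h0 | h0
    · rw [h0, abs_zero, Real.log_zero]
      have : 0 < a := by linarith
      positivity
    · have h3 : |M U| ≤ max K 1 * Real.exp ((y + (a - y) / 2) * U) :=
        (hK U hU1).trans (mul_le_mul_of_nonneg_right (le_max_left _ _) (Real.exp_pos _).le)
      have h4 := Real.log_le_log (abs_pos.2 h0) h3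
      rw [Real.log_mul hK1.ne' (Real.exp_pos _).ne', Real.log_exp] at h4
      nlinarith
  have hlow : ∀ a : ℝ, (∀ᶠ U : ℝ in Filter.atTop, Real.log |M U| / U ≤ a) → y ≤ a := by
    intro a ha
    by_contra hya
    push Not at hya
    obtain ⟨U0, hU0⟩ := Filter.eventually_atTop.1 ha
    obtain ⟨K1, hK1⟩ := (h2 y hy).2 hmax 1 one_pos
    have hb : ∀ U : ℝ, max U0 1 ≤ U → |M U| ≤ Real.exp (a * U) := by
      intro U hU
      have hUp : 0 < U := lt_of_lt_of_le one_pos ((le_max_right _ _).trans hU)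
      rcases eq_or_ne (M U) 0 with h0 | h0
      · rw [h0, abs_zero]
        exact (Real.exp_pos _).le
      · have h3 := hU0 U ((le_max_left _ _).trans hU)
        rw [div_le_iff₀ hUp] at h3
        rw [← Real.exp_log (abs_pos.2 h0)]
        exact Real.exp_le_exp.2 h3
    obtain ⟨K, hK⟩ := ls_glue M (y + 1) K1 a (max U0 1) (by linarith) hK1 hb
    rcases lt_or_ge a 0 with ha0 | ha0
    · have h3 := h1 ⟨-a, K, by linarith, fun U hU => by
        have h4 := hK U hU
        have h5 : -(-a * U) = a * U := by ring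
        rw [h5]
        exact h4⟩ y hyZ
      linarith
    · have h3 := (h2 a ha0).1 (fun ε hε => ⟨|K|, fun U hU => by
        have h4 := hK U hU
        have h5 : K * Real.exp (a * U) ≤ |K| * Real.exp (a * U) :=
          mul_le_mul_of_nonneg_right (le_abs_self _) (Real.exp_pos _).le
        have h6 : Real.exp (a * U) ≤ Real.exp ((a + ε) * U) := by
          refine Real.exp_le_exp.2 ?_
          nlinarith
        have h7 : |K| * Real.exp (a * U) ≤ |K| * Real.exp ((a + ε) * U) :=
          mul_le_mul_of_nonneg_left h6 (abs_nonneg _)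
        linarith⟩) y hyZ
      linarith
  have hne : {a : ℝ | ∀ᶠ U : ℝ in Filter.atTop, Real.log |M U| / U ≤ a}.Nonempty :=
    ⟨y + 1, hup _ (by linarith)⟩
  have hbb : BddBelow {a : ℝ | ∀ᶠ U : ℝ in Filter.atTop, Real.log |M U| / U ≤ a} :=
    ⟨y, fun a ha => hlow a ha⟩
  rw [Filter.limsup_eq]
  refine le_antisymm ?_ (le_csInf hne fun a ha => hlow a ha)
  refine le_of_forall_gt_imp_ge_of_dense fun a ha => ?_
  exact csInf_le hbb (hup a ha)

end W3283g97
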