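import Pool.Agent.W_3283e1_h97.Ls97
import Pool.Agent.W_3283e1_h53.GauLawL

set_option autoImplicit false

/-! The exponent of growth as a limes superior in the extended reals (no convention for unbounded
functions). -/

namespace W3283g97

/-- The law as a limes superior in the extended reals. -/
theorem limsup_lawE (M : ℝ → ℝ) (Z : Set ℝ) (y : ℝ) (hy : 0 ≤ y) (hyZ : y ∈ Z)
    (h1 : (∃ κ K : ℝ, 0 < κ ∧ ∀ U : ℝ, 1 ≤ U → |M U| ≤ K * Real.exp (-(κ * U))) →
      ∀ z ∈ Z, z < 0)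
    (h2 : ∀ x : ℝ, 0 ≤ x → ((∀ ε : ℝ, 0 < ε → ∃ K : ℝ, ∀ U : ℝ, 1 ≤ U →
      |M U| ≤ K * Real.exp ((x + ε) * U)) ↔ ∀ z ∈ Z, z ≤ x))
    (hmax : ∀ z ∈ Z, z ≤ y) :
    Filter.limsup (fun U : ℝ => ((Real.log |M U| / U : ℝ) : EReal)) Filter.atTop =
      ((y : ℝ) : EReal) := by
  have hup : ∀ a : ℝ, y < a → ∀ᶠ U : ℝ in Filter.atTop, Real.log |M U| / U ≤ a := by
    intro a ha
    obtain ⟨K, hK⟩ := (h2 y hy).2 hmax ((a - y) / 2) (by linarith)
    have hK1 : 0 < max K 1 := lt_of_lt_of_le one_pos (le_max_right _ _)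
    filter_upwards [Filter.eventually_ge_atTop (max 1 (Real.log (max K 1) / ((a - y) / 2)))]
      with U hU
    have hU1 : 1 ≤ U := (le_max_left _ _).trans hU
    have hU0 : 0 < U := by linarith
    have hU2 : Real.log (max K 1) ≤ (a - y) / 2 * U := by
      have := (le_max_right _ _).trans hU
      rw [div_le_iff₀ (by linarith)] at this
      linarith
    rw [div_le_iff₀ hU0]
    rcases eq_or_ne (M U) 0 with h0 | h0
    · rw [h0, abs_zero, Real.log_zero]
      have : 0 < a := by linarith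
      positivity
    · have h3 : |M U| ≤ max K 1 * Real.exp ((y + (a - y) / 2) * U) :=
        (hK U hU1).trans (mul_le_mul_of_nonneg_right (le_max_left _ _) (Real.exp_pos _).le)
      have h4 := Real.log_le_log (abs_pos.2 h0) h3
      rw [Real.log_mul hK1.ne' (Real.exp_pos _).ne', Real.log_exp] at h4
      nlinarith
  have hlow : ∀ a : ℝ, (∀ᶠ U : ℝ in Filter.atTop, Real.log |M U| / U ≤ a) → y ≤ a := by
    intro a ha
    by_contra hya
    push Not at hya
    obtain ⟨U0, hU0⟩ := Filter.eventually_atTop.1 ha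
    obtain ⟨K1, hK1⟩ := (h2 y hy).2 hmax 1 one_pos
    have hb : ∀ U : ℝ, max U0 1 ≤ U → |M U| ≤ Real.exp (a * U) := by
      intro U hU
      have hUp : 0 < U := lt_of_lt_of_le one_pos ((le_max_right _ _).trans hU)
      rcases eq_or_ne (M U) 0 with h0 | h0
      · rw [h0, abs_zero]
        exact (Real.exp_pos _).le
      · have h3 := hU0 U ((le_max_left _ _).trans hU)
        rw [div_le_iff₀ hUp] at h3
        rw [← Real.exp_log (abs_pos.2 h0)]
        exact Real.exp_le_exp.2 h3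
    obtain ⟨K, hK⟩ := ls_glue M (y + 1) K1 a (max U0 1) (by linarith) hK1 hb
    rcases lt_or_ge a 0 with ha0 | ha0
    · have h3 := h1 ⟨-a, K, by linarith, fun U hU => by
        have h4 := hK U hU
        have h5 : -(-a * U) = a * U := by ring
        rw [h5]
        exact h4⟩ y hyZ
      linarith
    · have h3 := (h2 a ha0).1 (fun ε hε => ⟨|K|, fun U hU => by
        have h4 := hK U hU
        have h5 : K * Real.exp (a * U) ≤ |K| * Real.exp (a * U) :=
          mul_le_mul_of_nonneg_right (le_abs_self _) (Real.exp_pos _).le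
        have h6 : Real.exp (a * U) ≤ Real.exp ((a + ε) * U) := by
          refine Real.exp_le_exp.2 ?_
          nlinarith
        have h7 : |K| * Real.exp (a * U) ≤ |K| * Real.exp ((a + ε) * U) :=
          mul_le_mul_of_nonneg_left h6 (abs_nonneg _)
        linarith⟩) y hyZ
      linarith
  refine le_antisymm ?_ ?_
  · refine le_of_forall_gt_imp_ge_of_dense fun b hb => ?_
    obtain ⟨a, ha1, ha2⟩ := EReal.lt_iff_exists_real_btwn.1 hb
    refine le_trans (Filter.limsup_le_of_le (by isBoundedDefault) ?_) ha2.le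
    filter_upwards [hup a (EReal.coe_lt_coe_iff.1 ha1)] with U hU
    exact EReal.coe_le_coe_iff.2 hU
  · by_contra hcon
    push Not at hcon
    obtain ⟨a, ha1, ha2⟩ := EReal.lt_iff_exists_real_btwn.1 hcon
    have h3 := Filter.eventually_lt_of_limsup_lt ha1
    have h4 := hlow a (by
      filter_upwards [h3] with U hU
      exact (EReal.coe_lt_coe_iff.1 hU).le)
    exact absurd (EReal.coe_lt_coe_iff.1 ha2) (not_lt.2 h4)

open Complex W3283e1 W3283f W3283g MeasureTheory Filter Topology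

/-- The exact growth exponent of the means: the largest level of a zero, if it is `≥ 0`. -/
theorem main_limsupE (k : ℕ) (c : ℤ) (n f i j : ℕ) (L : ℂ → ℂ) (r : ℕ) (l V : ℝ)
    (h : SU k c n f i j L r l V) (A : ℝ) (hA : 0 < A) (s1 : ℂ) (h1 : 1 < s1.re) (hs1 : L s1 = 0)
    (hl : A * s1.im ^ 2 ≤ A * (s1.re - 1) ^ 2 + 2 * (s1.re - 1)) :
    ∃ s0 : ℂ, 1 < s0.re ∧ L s0 = 0 ∧
      (∀ s : ℂ, 1 < s.re → L s = 0 → (s.re - 1) + A * ((s.re - 1) ^ 2 - s.im ^ 2) / 2 ≤
        (s0.re - 1) + A * ((s0.re - 1) ^ 2 - s0.im ^ 2) / 2) ∧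
      limsup (fun U : ℝ => ((Real.log |gP (c * k ^ 2) 0
        (Real.sqrt 2 * Real.exp (r * Real.eulerMascheroniConstant) / |l|) r A U| / U : ℝ) : EReal))
          atTop = (((s0.re - 1) + A * ((s0.re - 1) ^ 2 - s0.im ^ 2) / 2 : ℝ) : EReal) := by
  obtain ⟨s0, a1, a2, a3, a4⟩ := lev_max L h.hL.continuous
    (fun s hs => main_ne k c n f i j L r l V h s hs) A hA s1 h1 hs1 (by linarith)
  refine ⟨s0, a1, a2, a4, ?_⟩
  refine W3283g97.limsup_lawE (fun U : ℝ => gP (c * k ^ 2) 0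
        (Real.sqrt 2 * Real.exp (r * Real.eulerMascheroniConstant) / |l|) r A U)
    {z : ℝ | ∃ s : ℂ, 1 < s.re ∧ L s = 0 ∧
      (s.re - 1) + A * ((s.re - 1) ^ 2 - s.im ^ 2) / 2 = z} _ a3 ⟨s0, a1, a2, rfl⟩ ?_ ?_ ?_
  · intro hd z hz
    obtain ⟨s, b1, b2, b3⟩ := hz
    have h3 := (main_dec k c n f i j L r l V h A hA).1 hd s b1
    by_contra h4
    apply h3 _ b2
    rw [← b3] at h4
    linarith
  · intro x hx
    have h3 := main_law k c n f i j L r l V h A hA x hx
    refine h3.trans ?_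
    constructor
    · rintro h4 z ⟨s, b1, b2, b3⟩
      by_contra h5
      exact h4 s b1 (by rw [b3]; exact not_le.1 h5) b2
    · intro h4 s b1 b2 b3
      have := h4 _ ⟨s, b1, b3, rfl⟩
      linarith
  · rintro z ⟨s, b1, b2, b3⟩
    rw [← b3]
    exact a4 s b1 b2

end W3283g97
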