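import Mathlib

set_option autoImplicit false

/-! All the half planes bounded by hyperbolas together. -/

namespace W3283g97

/-- If for every `A > 0` the condition `Dec A` says that `L` has no zero in the closed region
`A t² ≤ A σ² + 2σ`, then `Dec A` for every `A > 0` says that `L` has no zero at all on the right of
`1`. -/
theorem rh_of_all (L : ℂ → ℂ) (Dec : ℝ → Prop)
    (h : ∀ A : ℝ, 0 < A → (Dec A ↔ ∀ s : ℂ, 1 < s.re →
      A * s.im ^ 2 ≤ A * (s.re - 1) ^ 2 + 2 * (s.re - 1) → L s ≠ 0)) :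
    (∀ A : ℝ, 0 < A → Dec A) ↔ ∀ s : ℂ, 1 < s.re → L s ≠ 0 := by
  constructor
  · intro hA s hs
    have hd : 0 < s.re - 1 := by linarith
    have hq : 0 < s.im ^ 2 + 1 := by positivity
    have hA0 : 0 < 2 * (s.re - 1) / (s.im ^ 2 + 1) := by positivity
    refine (h _ hA0).1 (hA _ hA0) s hs ?_
    have h1 : 2 * (s.re - 1) / (s.im ^ 2 + 1) * s.im ^ 2 ≤ 2 * (s.re - 1) := by
      rw [div_mul_eq_mul_div, div_le_iff₀ hq]
      nlinarith
    have h2 : 0 ≤ 2 * (s.re - 1) / (s.im ^ 2 + 1) * (s.re - 1) ^ 2 := by positivity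
    linarith
  · intro hz A hA
    exact (h A hA).2 fun s hs _ => hz s hs

end W3283g97
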